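import Pool.Agent.AOI.Defs

set_option autoImplicit false

/-! AOD-Acc: the rows of the accumulated array. -/

namespace Pool.Agent.AOI

private theorem acc_split {K : Type*} [Field K] {n c : ℕ} (h : Fin n → Fin c)
    (D B : Finset (Fin c)) (S : Finset (Fin n)) (memS : ∀ i, i ∈ S ↔ h i ∈ B)
    (F F1 F2 : Finset (Finset (Fin n)))
    (hF : ∀ V, V ∈ F ↔ Set.InjOn h (V : Set (Fin n)) ∧ V.image h = D)
    (hF1 : ∀ V, V ∈ F1 ↔ Set.InjOn h (V : Set (Fin n)) ∧ V.image h = D ∩ B)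
    (hF2 : ∀ V, V ∈ F2 ↔ Set.InjOn h (V : Set (Fin n)) ∧ V.image h = D \ B)
    (f : Finset (Fin n) → K) :
    ∑ V ∈ F, f V = ∑ V1 ∈ F1, ∑ V2 ∈ F2, f (V1 ∪ V2) := by
  rw [← Finset.sum_product']
  have hS1 : ∀ V ∈ F1, V ⊆ S := by
    intro V hV i hi
    have h1 := ((hF1 V).1 hV).2
    have h2 : h i ∈ D ∩ B := by
      rw [← h1]
      exact Finset.mem_image_of_mem h hi
    exact (memS i).2 (Finset.mem_inter.1 h2).2
  have hS2 : ∀ V ∈ F2, ∀ i ∈ V, i ∉ S := by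
    intro V hV i hi hiS
    have h1 := ((hF2 V).1 hV).2
    have h2 : h i ∈ D \ B := by
      rw [← h1]
      exact Finset.mem_image_of_mem h hi
    exact (Finset.mem_sdiff.1 h2).2 ((memS i).1 hiS)
  refine Finset.sum_nbij' (fun V => (V ∩ S, V \ S)) (fun p => p.1 ∪ p.2) ?_ ?_ ?_ ?_ ?_
  · intro V hV
    obtain ⟨h1, h2⟩ := (hF V).1 hV
    rw [Finset.mem_product]
    refine ⟨(hF1 _).2 ⟨h1.mono ?_, ?_⟩, (hF2 _).2 ⟨h1.mono ?_, ?_⟩⟩
    · intro i hi
      exact (Finset.mem_inter.1 (Finset.mem_coe.1 hi)).1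
    · ext y
      rw [Finset.mem_image, Finset.mem_inter, ← h2, Finset.mem_image]
      constructor
      · rintro ⟨i, hi, rfl⟩
        rw [Finset.mem_inter] at hi
        exact ⟨⟨i, hi.1, rfl⟩, (memS i).1 hi.2⟩
      · rintro ⟨⟨i, hi, rfl⟩, hy⟩
        exact ⟨i, Finset.mem_inter.2 ⟨hi, (memS i).2 hy⟩, rfl⟩
    · intro i hi
      exact (Finset.mem_sdiff.1 (Finset.mem_coe.1 hi)).1
    · ext y
      rw [Finset.mem_image, Finset.mem_sdiff, ← h2, Finset.mem_image]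
      constructor
      · rintro ⟨i, hi, rfl⟩
        rw [Finset.mem_sdiff] at hi
        exact ⟨⟨i, hi.1, rfl⟩, fun hy => hi.2 ((memS i).2 hy)⟩
      · rintro ⟨⟨i, hi, rfl⟩, hy⟩
        exact ⟨i, Finset.mem_sdiff.2 ⟨hi, fun hiS => hy ((memS i).1 hiS)⟩, rfl⟩
  · intro p hp
    obtain ⟨hp1, hp2⟩ := Finset.mem_product.1 hp
    obtain ⟨h1, h2⟩ := (hF1 _).1 hp1
    obtain ⟨h3, h4⟩ := (hF2 _).1 hp2
    refine (hF _).2 ⟨?_, ?_⟩
    · intro i hi j hj hij
      rw [Finset.mem_coe, Finset.mem_union] at hi hj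
      rcases hi with hi | hi <;> rcases hj with hj | hj
      · exact h1 (Finset.mem_coe.2 hi) (Finset.mem_coe.2 hj) hij
      · exfalso
        refine hS2 _ hp2 j hj ((memS j).2 ?_)
        rw [← hij]
        exact (memS i).1 (hS1 _ hp1 hi)
      · exfalso
        refine hS2 _ hp2 i hi ((memS i).2 ?_)
        rw [hij]
        exact (memS j).1 (hS1 _ hp1 hj)
      · exact h3 (Finset.mem_coe.2 hi) (Finset.mem_coe.2 hj) hij
    · rw [Finset.image_union, h2, h4, Finset.union_comm, Finset.sdiff_union_inter]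
  · intro V _
    show V ∩ S ∪ V \ S = V
    rw [Finset.union_comm, Finset.sdiff_union_inter]
  · intro p hp
    obtain ⟨hp1, hp2⟩ := Finset.mem_product.1 hp
    refine Prod.ext ?_ ?_
    · show (p.1 ∪ p.2) ∩ S = p.1
      ext i
      rw [Finset.mem_inter, Finset.mem_union]
      exact ⟨fun hi => hi.1.resolve_right fun h2 => hS2 _ hp2 i h2 hi.2,
        fun hi => ⟨Or.inl hi, hS1 _ hp1 hi⟩⟩
    · show (p.1 ∪ p.2) \ S = p.2
      ext i
      rw [Finset.mem_sdiff, Finset.mem_union]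
      exact ⟨fun hi => hi.1.resolve_left fun h2 => hi.2 (hS1 _ hp1 h2),
        fun hi => ⟨Or.inr hi, hS2 _ hp2 i hi⟩⟩
  · intro V _
    show f V = f (V ∩ S ∪ V \ S)
    rw [Finset.union_comm, Finset.sdiff_union_inter]

theorem finrank_acc {K : Type*} [Field K] {n c w : ℕ} (a : Finset (Fin n) → K)
    (hw : AOR.Flat w a) (h : Fin n → Fin c) (χ : Fin n → K) (D B : Finset (Fin c)) :
    Module.finrank K (Submodule.span K (Set.range
      (AOR.row (acc a h χ D) (Finset.univ.filter fun i => h i ∈ B)))) ≤ w := by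
  classical
  generalize hS : (Finset.univ.filter fun i => h i ∈ B) = S
  have memS : ∀ i, i ∈ S ↔ h i ∈ B := by
    intro i
    rw [← hS, Finset.mem_filter]
    exact ⟨fun x => x.2, fun x => ⟨Finset.mem_univ _, x⟩⟩
  obtain ⟨F1, hF1⟩ : ∃ F1 : Finset (Finset (Fin n)),
      ∀ V, V ∈ F1 ↔ Set.InjOn h (V : Set (Fin n)) ∧ V.image h = D ∩ B :=
    ⟨Finset.univ.filter fun V => Set.InjOn h (V : Set (Fin n)) ∧ V.image h = D ∩ B,
      fun V => by rw [Finset.mem_filter]; exact ⟨fun x => x.2, fun x => ⟨Finset.mem_univ _, x⟩⟩⟩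
  obtain ⟨F2, hF2⟩ : ∃ F2 : Finset (Finset (Fin n)),
      ∀ V, V ∈ F2 ↔ Set.InjOn h (V : Set (Fin n)) ∧ V.image h = D \ B :=
    ⟨Finset.univ.filter fun V => Set.InjOn h (V : Set (Fin n)) ∧ V.image h = D \ B,
      fun V => by rw [Finset.mem_filter]; exact ⟨fun x => x.2, fun x => ⟨Finset.mem_univ _, x⟩⟩⟩
  have hS1 : ∀ V ∈ F1, V ⊆ S := by
    intro V hV i hi
    have h1 := ((hF1 V).1 hV).2
    have h2 : h i ∈ D ∩ B := by
      rw [← h1]
      exact Finset.mem_image_of_mem h hi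
    exact (memS i).2 (Finset.mem_inter.1 h2).2
  have hS2 : ∀ V ∈ F2, ∀ i ∈ V, i ∉ S := by
    intro V hV i hi hiS
    have h1 := ((hF2 V).1 hV).2
    have h2 : h i ∈ D \ B := by
      rw [← h1]
      exact Finset.mem_image_of_mem h hi
    exact (Finset.mem_sdiff.1 h2).2 ((memS i).1 hiS)
  let Φ : (Finset (Fin n) → K) →ₗ[K] (Finset (Fin n) → K) :=
    { toFun := fun r C => (∏ i ∈ C \ S, χ i) * ∑ V2 ∈ F2, r ((C \ S) ∪ V2)
      map_add' := by
        intro r s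
        funext C
        show (∏ i ∈ C \ S, χ i) * ∑ V2 ∈ F2, (r ((C \ S) ∪ V2) + s ((C \ S) ∪ V2)) =
          (∏ i ∈ C \ S, χ i) * ∑ V2 ∈ F2, r ((C \ S) ∪ V2) +
            (∏ i ∈ C \ S, χ i) * ∑ V2 ∈ F2, s ((C \ S) ∪ V2)
        rw [Finset.sum_add_distrib, mul_add]
      map_smul' := by
        intro t r
        funext C
        show (∏ i ∈ C \ S, χ i) * ∑ V2 ∈ F2, (t * r ((C \ S) ∪ V2)) =
          t * ((∏ i ∈ C \ S, χ i) * ∑ V2 ∈ F2, r ((C \ S) ∪ V2))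
        rw [← Finset.mul_sum]
        ring }
  have hΦ : ∀ r C, Φ r C = (∏ i ∈ C \ S, χ i) * ∑ V2 ∈ F2, r ((C \ S) ∪ V2) := fun r C => rfl
  have key : ∀ A, AOR.row (acc a h χ D) S A =
      (∏ i ∈ A ∩ S, χ i) • ∑ V1 ∈ F1, Φ (AOR.row a S ((A ∩ S) ∪ V1)) := by
    intro A
    funext C
    have hdis : Disjoint (A ∩ S) (C \ S) := by
      rw [Finset.disjoint_left]
      intro i hi hi'
      exact (Finset.mem_sdiff.1 hi').2 (Finset.mem_inter.1 hi).2
    rw [Pi.smul_apply, Finset.sum_apply, smul_eq_mul]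
    show (acc a h χ D) ((A ∩ S) ∪ (C \ S)) = _
    unfold acc
    rw [Finset.prod_union hdis, mul_assoc]
    congr 1
    rw [acc_split h D B S memS _ F1 F2 (fun V => by
      rw [Finset.mem_filter]; exact ⟨fun x => x.2, fun x => ⟨Finset.mem_univ _, x⟩⟩) hF1 hF2]
    rw [Finset.mul_sum]
    refine Finset.sum_congr rfl fun V1 hV1 => ?_
    rw [hΦ]
    congr 1
    refine Finset.sum_congr rfl fun V2 hV2 => ?_
    show a ((A ∩ S) ∪ (C \ S) ∪ (V1 ∪ V2)) =
      a ((((A ∩ S) ∪ V1) ∩ S) ∪ (((C \ S) ∪ V2) \ S))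
    congr 1
    ext i
    have h1 : i ∈ V1 → i ∈ S := fun hi => hS1 V1 hV1 hi
    have h2 : i ∈ V2 → i ∉ S := fun hi => hS2 V2 hV2 i hi
    simp only [Finset.mem_union, Finset.mem_inter, Finset.mem_sdiff]
    tauto
  have hle : Submodule.span K (Set.range (AOR.row (acc a h χ D) S)) ≤
      Submodule.map Φ (Submodule.span K (Set.range (AOR.row a S))) := by
    rw [Submodule.span_le]
    rintro _ ⟨A, rfl⟩
    rw [SetLike.mem_coe, key A]
    exact Submodule.smul_mem _ _ (Submodule.sum_mem _ fun V1 _ =>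
      Submodule.mem_map_of_mem (Submodule.subset_span ⟨_, rfl⟩))
  exact ((Submodule.finrank_mono hle).trans (Submodule.finrank_map_le _ _)).trans (hw S)

end Pool.Agent.AOI
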