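import Pool.Agent.AOI.Defs

set_option autoImplicit false

namespace Pool.Agent.AOI

open MvPolynomial

/- PLAN.  `MvPolynomial.coeff_mul`: sum over the antidiagonal of `μ + ν` of
`coeff x.1 g * coeff x.2 h`; if both factors are not zero then `x.1.support ⊆ g.vars ⊆ S` and
`x.2.support ⊆ Sᶜ` (`MvPolynomial.mem_vars`: a variable of a monomial in the support), together with
`x.1 + x.2 = μ + ν` this gives `x = (μ, ν)`. -/
theorem coeff_mul_disj {K : Type*} [Field K] {n : ℕ} (S : Finset (Fin n))
    (g h : MvPolynomial (Fin n) K) (hg : g.vars ⊆ S) (hh : h.vars ⊆ Sᶜ) (μ ν : Fin n →₀ ℕ)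
    (hμ : μ.support ⊆ S) (hν : ν.support ⊆ Sᶜ) :
    coeff (μ + ν) (g * h) = coeff μ g * coeff ν h := by
  classical
  rw [coeff_mul]
  refine (Finset.sum_eq_single (μ, ν) ?_ ?_)
  · rintro ⟨a, b⟩ hx hne
    rw [Finset.HasAntidiagonal.mem_antidiagonal] at hx
    by_contra hc
    have ha : coeff a g ≠ 0 := left_ne_zero_of_mul hc
    have hb : coeff b h ≠ 0 := right_ne_zero_of_mul hc
    have haS : a.support ⊆ S := fun i hi => hg (by
      rw [mem_vars_iff_mem_support]
      exact ⟨a, mem_support_iff.2 ha, hi⟩)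
    have hbS : b.support ⊆ Sᶜ := fun i hi => hh (by
      rw [mem_vars_iff_mem_support]
      exact ⟨b, mem_support_iff.2 hb, hi⟩)
    apply hne
    have hx' : ∀ i, a i + b i = μ i + ν i := fun i => by
      have := DFunLike.congr_fun hx i
      simpa using this
    have key : ∀ i, a i = μ i ∧ b i = ν i := by
      intro i
      have h1 := hx' i
      by_cases hi : i ∈ S
      · have hb0 : b i = 0 := by
          by_contra h0
          exact (Finset.mem_compl.1 (hbS (Finsupp.mem_support_iff.2 h0))) hi
        have hn0 : ν i = 0 := by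
          by_contra h0
          exact (Finset.mem_compl.1 (hν (Finsupp.mem_support_iff.2 h0))) hi
        omega
      · have hb0 : a i = 0 := by
          by_contra h0
          exact hi (haS (Finsupp.mem_support_iff.2 h0))
        have hn0 : μ i = 0 := by
          by_contra h0
          exact hi (hμ (Finsupp.mem_support_iff.2 h0))
        omega
    exact Prod.ext (Finsupp.ext fun i => (key i).1) (Finsupp.ext fun i => (key i).2)
  · intro hx
    exact absurd (by rw [Finset.HasAntidiagonal.mem_antidiagonal]) hx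

private theorem arr_ex_union {n c : ℕ} (β : Fin c → ℕ) (h : Fin n → Fin c)
    (S A B : Finset (Fin n)) :
    ex β h ((A ∩ S) ∪ (B \ S)) = ex β h (A ∩ S) + ex β h (B \ S) := by
  unfold ex
  rw [Finset.sum_union]
  rw [Finset.disjoint_left]
  intro i hi hj
  exact (Finset.mem_sdiff.1 hj).2 (Finset.mem_inter.1 hi).2

private theorem arr_ex_support {n c : ℕ} (β : Fin c → ℕ) (h : Fin n → Fin c)
    (V : Finset (Fin n)) : (ex β h V).support ⊆ V := by
  classical
  intro i hi
  rw [Finsupp.mem_support_iff] at hi
  by_contra hV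
  apply hi
  unfold ex
  rw [Finsupp.finsetSum_apply]
  refine Finset.sum_eq_zero fun j hj => ?_
  rw [Finsupp.single_apply, if_neg]
  rintro rfl
  exact hV hj

/- PLAN.  Fix `S`, `F = ∑_k g_k h_k`.  `ex β h ((A ∩ S) ∪ (B \ S)) = ex β h (A ∩ S) + ex β h (B \ S)`
(disjoint union), so by `coeff_mul_disj` `row (arr F β h) S A = ∑_k coeff (ex (A ∩ S)) g_k • r_k`
with `r_k B = coeff (ex β h (B \ S)) h_k`, `k : Fin w`: all rows are in `span (range r)`, which has
`finrank ≤ w` (`finrank_range_le_card`). -/
theorem flat_arr {K : Type*} [Field K] {n c w : ℕ} (F : MvPolynomial (Fin n) K) (hF : Cuts w F)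
    (β : Fin c → ℕ) (h : Fin n → Fin c) : AOR.Flat w (arr F β h) := by
  classical
  intro S
  obtain ⟨g, k, hg, hk, rfl⟩ := hF S
  let r : Fin w → Finset (Fin n) → K := fun j B => coeff (ex β h (B \ S)) (k j)
  have hrow : ∀ A, AOR.row (arr (∑ j, g j * k j) β h) S A =
      ∑ j, coeff (ex β h (A ∩ S)) (g j) • r j := by
    intro A
    funext B
    simp only [AOR.row, arr, r, Finset.sum_apply, Pi.smul_apply, smul_eq_mul]
    rw [arr_ex_union, coeff_sum]
    refine Finset.sum_congr rfl fun j _ => ?_
    refine coeff_mul_disj S _ _ (hg j) (hk j) _ _ ?_ ?_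
    · exact (arr_ex_support β h _).trans Finset.inter_subset_right
    · refine (arr_ex_support β h _).trans fun i hi => ?_
      exact Finset.mem_compl.2 (Finset.mem_sdiff.1 hi).2
  have hle : Submodule.span K (Set.range (AOR.row (arr (∑ j, g j * k j) β h) S)) ≤
      Submodule.span K (Set.range r) := by
    rw [Submodule.span_le]
    rintro _ ⟨A, rfl⟩
    rw [hrow]
    exact Submodule.sum_mem _ fun j _ =>
      Submodule.smul_mem _ _ (Submodule.subset_span ⟨j, rfl⟩)
  refine (Submodule.finrank_mono hle).trans ?_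
  have h1 : Set.finrank K (Set.range r) ≤ w := by
    simpa using finrank_range_le_card (R := K) r
  exact h1

end Pool.Agent.AOI
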