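import Pool.Agent.AOI.Defs
import Pool.Agent.AOR.HashD

set_option autoImplicit false

namespace Pool.Agent.AOI

/- PLAN.  `Finset.card_image_le`, `Finset.card_product`; `AOR.card_family`, `AOR.ncol_le`
(model: `AOR/Card.lean`).  With `Z = (2 w) ^ d` and `κ = KK d w = 3 d k0` one has `2 ^ κ ≤ Z ^ 3`,
`s1 ≤ Z ^ 2`, `s2 ≤ Z ^ 7`, `M3 κ ≤ Z ^ 117`, and the product of all factors is at most
`(n + 1) ^ 6 * Z ^ 256`. -/
theorem card_points (n d w : ℕ) (hd : 1 ≤ d) (hw : 1 ≤ w) :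
    (points n d w).card ≤ (n + 1) ^ 7 * (2 * w) ^ (400 * d) := by
  have hL : 2 ^ k0 w ≤ 2 * w := by
    unfold k0
    rw [pow_succ, mul_comm]
    exact Nat.mul_le_mul_left _ (Nat.pow_log_le_self 2 (by omega))
  -- Z
  obtain ⟨Z, hZ⟩ : ∃ Z, Z = (2 * w) ^ d := ⟨_, rfl⟩
  have hWZ : 2 * w ≤ Z := by
    rw [hZ]
    calc 2 * w = (2 * w) ^ 1 := (pow_one _).symm
      _ ≤ (2 * w) ^ d := Nat.pow_le_pow_right (by omega) hd
  have h2Z : 2 ≤ Z := by omega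
  have h1Z : 1 ≤ Z := by omega
  have h2dZ : 2 ^ d ≤ Z := by
    rw [hZ]
    exact Nat.pow_le_pow_left (by omega) d
  have hdZ : d + 1 ≤ Z := le_trans (Nat.succ_le_of_lt Nat.lt_two_pow_self) h2dZ
  -- κ
  have hκ : 2 ^ KK d w ≤ Z ^ 3 := by
    unfold KK
    calc 2 ^ (d * (3 * k0 w)) = ((2 ^ k0 w) ^ d) ^ 3 := by
          rw [← pow_mul, ← pow_mul]
          congr 1
          ring
      _ ≤ ((2 * w) ^ d) ^ 3 := Nat.pow_le_pow_left (Nat.pow_le_pow_left hL d) 3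
      _ = Z ^ 3 := by rw [hZ]
  have hs1 : s1 d w ≤ Z ^ 2 := by
    unfold s1
    have h4d : 4 * d ≤ 2 ^ (d + 1) := by
      have h : ∀ e : ℕ, 2 * (e + 1) ≤ 2 ^ (e + 1) := by
        intro e
        induction e with
        | zero => norm_num
        | succ e ih =>
          have h3 : 2 ^ (e + 1 + 1) = 2 * 2 ^ (e + 1) := by ring
          omega
      obtain ⟨e, rfl⟩ : ∃ e, d = e + 1 := ⟨d - 1, by omega⟩
      have h3 : 2 ^ (e + 1 + 1) = 2 * 2 ^ (e + 1) := by ring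
      have h5 := h e
      omega
    calc (4 * d) ^ k0 w ≤ (2 ^ (d + 1)) ^ k0 w := Nat.pow_le_pow_left h4d _
      _ = (2 ^ k0 w) ^ (d + 1) := by
          rw [← pow_mul, ← pow_mul, mul_comm]
      _ ≤ (2 * w) ^ (d + 1) := Nat.pow_le_pow_left hL _
      _ = Z * (2 * w) := by rw [pow_succ, hZ]
      _ ≤ Z * Z := Nat.mul_le_mul_left _ hWZ
      _ = Z ^ 2 := by ring
  have hs2 : s2 d w ≤ Z ^ 7 := by
    unfold s2
    calc w * 4 ^ KK d w = w * (2 ^ KK d w) ^ 2 := by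
          rw [← pow_mul, mul_comm (KK d w) 2, pow_mul]
          norm_num
      _ ≤ Z * (Z ^ 3) ^ 2 := Nat.mul_le_mul (by omega) (Nat.pow_le_pow_left hκ 2)
      _ = Z ^ 7 := by ring
  have hκ1 : KK d w + 1 ≤ Z ^ 3 := le_trans (Nat.succ_le_of_lt Nat.lt_two_pow_self) hκ
  have hnc : AOR.ncol (KK d w) ≤ 16 * KK d w + 4 := AOR.ncol_le _
  have h4Z : 2 ^ 4 ≤ Z ^ 4 := Nat.pow_le_pow_left h2Z 4
  -- M3
  have hM3 : AOR.M3 (KK d w) ≤ Z ^ 117 := by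
    unfold AOR.M3
    have e0 : AOR.ncol (KK d w) ≤ Z ^ 7 := by
      calc AOR.ncol (KK d w) ≤ 2 ^ 4 * (KK d w + 1) := by omega
        _ ≤ Z ^ 4 * Z ^ 3 := Nat.mul_le_mul h4Z hκ1
        _ = Z ^ 7 := by ring
    have e1 : 2 ^ (AOR.ncol (KK d w) + KK d w) ≤ Z ^ 55 := by
      calc 2 ^ (AOR.ncol (KK d w) + KK d w) ≤ 2 ^ (4 + KK d w * 17) :=
            Nat.pow_le_pow_right (by norm_num) (by omega)
        _ = 2 ^ 4 * (2 ^ KK d w) ^ 17 := by rw [pow_add, pow_mul]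
        _ ≤ Z ^ 4 * (Z ^ 3) ^ 17 := Nat.mul_le_mul h4Z (Nat.pow_le_pow_left hκ 17)
        _ = Z ^ 55 := by ring
    calc AOR.ncol (KK d w) * (2 ^ (AOR.ncol (KK d w) + KK d w)) ^ 2
        ≤ Z ^ 7 * (Z ^ 55) ^ 2 := Nat.mul_le_mul e0 (Nat.pow_le_pow_left e1 2)
      _ = Z ^ 117 := by ring
  -- the factors
  have f1 : n * d * (n * s1 d w ^ 2) + 1 ≤ (n + 1) ^ 2 * Z ^ 5 := by
    have e1 : n * d * (n * s1 d w ^ 2) ≤ n ^ 2 * Z ^ 5 := by
      calc n * d * (n * s1 d w ^ 2) = n ^ 2 * (d * s1 d w ^ 2) := by ring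
        _ ≤ n ^ 2 * (Z * (Z ^ 2) ^ 2) :=
            Nat.mul_le_mul_left _ (Nat.mul_le_mul (by omega) (Nat.pow_le_pow_left hs1 2))
        _ = n ^ 2 * Z ^ 5 := by ring
    have e2 : 1 ≤ Z ^ 5 := Nat.one_le_pow _ _ h1Z
    nlinarith [Nat.zero_le (n * Z ^ 5)]
  have f2 : KK d w * (n * s2 d w ^ 2) + 1 ≤ (n + 1) * Z ^ 17 := by
    have e1 : KK d w * (n * s2 d w ^ 2) ≤ n * Z ^ 17 := by
      calc KK d w * (n * s2 d w ^ 2) = n * (KK d w * s2 d w ^ 2) := by ring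
        _ ≤ n * (Z ^ 3 * (Z ^ 7) ^ 2) :=
            Nat.mul_le_mul_left _ (Nat.mul_le_mul (by omega) (Nat.pow_le_pow_left hs2 2))
        _ = n * Z ^ 17 := by ring
    have e2 : 1 ≤ Z ^ 17 := Nat.one_le_pow _ _ h1Z
    rw [Nat.add_mul, Nat.one_mul]
    exact Nat.add_le_add e1 e2
  have f4 : KK d w * AOR.M3 (KK d w) + 1 ≤ Z ^ 120 := by
    have e1 : KK d w * AOR.M3 (KK d w) ≤ KK d w * Z ^ 117 := Nat.mul_le_mul_left _ hM3
    have e2 : (KK d w + 1) * Z ^ 117 ≤ Z ^ 3 * Z ^ 117 := Nat.mul_le_mul_right _ hκ1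
    have e3 : 1 ≤ Z ^ 117 := Nat.one_le_pow _ _ h1Z
    have e4 : Z ^ 3 * Z ^ 117 = Z ^ 120 := by ring
    rw [← e4]
    refine le_trans ?_ e2
    rw [Nat.add_mul, Nat.one_mul]
    exact Nat.add_le_add e1 e3
  have f5 : n * d + 1 ≤ (n + 1) * Z := by
    have e1 : n * d ≤ n * Z := Nat.mul_le_mul_left _ (by omega)
    rw [Nat.add_mul, Nat.one_mul]
    exact Nat.add_le_add e1 h1Z
  have f6 : (AOR.family n (KK d w)).card ≤ (n + 1) ^ 2 * Z ^ 110 := by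
    refine le_trans (AOR.card_family n (KK d w)) ?_
    calc (2 * n + 1) ^ 2 * 2 ^ (36 * KK d w)
        ≤ (2 * (n + 1)) ^ 2 * (2 ^ KK d w) ^ 36 := by
          refine Nat.mul_le_mul (Nat.pow_le_pow_left (by omega) 2) (le_of_eq ?_)
          rw [← pow_mul, mul_comm 36]
      _ ≤ (Z * (n + 1)) ^ 2 * (Z ^ 3) ^ 36 :=
          Nat.mul_le_mul (Nat.pow_le_pow_left (Nat.mul_le_mul_right _ h2Z) 2)
            (Nat.pow_le_pow_left hκ 36)
      _ = (n + 1) ^ 2 * Z ^ 110 := by ring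
  have h0 : (points n d w).card ≤ (n * d * (n * s1 d w ^ 2) + 1) *
      ((KK d w * (n * s2 d w ^ 2) + 1) * ((KK d w + 1) *
        ((KK d w * AOR.M3 (KK d w) + 1) * ((n * d + 1) * (AOR.family n (KK d w)).card)))) := by
    unfold points
    refine le_trans Finset.card_image_le ?_
    rw [Finset.card_product, Finset.card_product, Finset.card_product, Finset.card_product,
      Finset.card_product, Finset.card_range, Finset.card_range, Finset.card_range,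
      Finset.card_range, Finset.card_range]
  refine le_trans h0 ?_
  calc (n * d * (n * s1 d w ^ 2) + 1) *
      ((KK d w * (n * s2 d w ^ 2) + 1) * ((KK d w + 1) *
        ((KK d w * AOR.M3 (KK d w) + 1) * ((n * d + 1) * (AOR.family n (KK d w)).card))))
      ≤ ((n + 1) ^ 2 * Z ^ 5) * (((n + 1) * Z ^ 17) * (Z ^ 3 * (Z ^ 120 *
          (((n + 1) * Z) * ((n + 1) ^ 2 * Z ^ 110))))) :=
        Nat.mul_le_mul f1 (Nat.mul_le_mul f2 (Nat.mul_le_mul hκ1 (Nat.mul_le_mul f4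
          (Nat.mul_le_mul f5 f6))))
    _ = (n + 1) ^ 6 * Z ^ 256 := by ring
    _ ≤ (n + 1) ^ 7 * Z ^ 400 :=
        Nat.mul_le_mul (Nat.pow_le_pow_right (by omega) (by norm_num))
          (Nat.pow_le_pow_right h1Z (by norm_num))
    _ = (n + 1) ^ 7 * (2 * w) ^ (400 * d) := by
        rw [hZ, ← pow_mul, mul_comm d 400]

end Pool.Agent.AOI
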