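import Pool.Agent.AOI.Defs

set_option autoImplicit false

namespace Pool.Agent.AOI

open MvPolynomial

private theorem vars_sh {K : Type*} [Field K] {n : ℕ} (S : Finset (Fin n)) (p : Fin n → K)
    (q : MvPolynomial (Fin n) K) (hq : q.vars ⊆ S) : (sh q p).vars ⊆ S := by
  have h1 : q ∈ supported K (S : Set (Fin n)) := mem_supported.2 (by exact_mod_cast hq)
  have h2 : sh q p ∈ (supported K (S : Set (Fin n))).map
      (aeval (fun i => C (p i) + X i) : MvPolynomial (Fin n) K →ₐ[K] MvPolynomial (Fin n) K) :=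
    ⟨q, h1, rfl⟩
  have h3 : (supported K (S : Set (Fin n))).map
      (aeval (fun i => C (p i) + X i) : MvPolynomial (Fin n) K →ₐ[K] MvPolynomial (Fin n) K) ≤
      supported K (S : Set (Fin n)) := by
    rw [supported_eq_adjoin_X, AlgHom.map_adjoin]
    refine Algebra.adjoin_le ?_
    rintro y ⟨z, ⟨i, hi, rfl⟩, rfl⟩
    show aeval (fun i => C (p i) + X i) (X i : MvPolynomial (Fin n) K) ∈
      Algebra.adjoin K (X '' (S : Set (Fin n)))
    rw [aeval_X]
    exact add_mem (Subalgebra.algebraMap_mem _ (p i)) (Algebra.subset_adjoin ⟨i, hi, rfl⟩)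
  exact_mod_cast mem_supported.1 (h3 h2)

/- The shift is an algebra homomorphism. -/
theorem Cut.sh {K : Type*} [Field K] {n w : ℕ} {S : Finset (Fin n)}
    {f : MvPolynomial (Fin n) K} (hf : Cut w S f) (p : Fin n → K) : Cut w S (sh f p) := by
  obtain ⟨g, h, hg, hh, rfl⟩ := hf
  refine ⟨fun k => AOI.sh (g k) p, fun k => AOI.sh (h k) p, fun k => vars_sh S p _ (hg k),
    fun k => vars_sh Sᶜ p _ (hh k), ?_⟩
  unfold AOI.sh
  rw [map_sum]
  simp only [map_mul]

end Pool.Agent.AOI
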