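import Mathlib

/-!
Project AOI (MP_e2be99_lc): low support lemma for polynomials of individual degree `≤ d`
(note /team-store/pit52_degree.md, step 1).

`L / K` fields, `c` an array (the coefficients of a polynomial `u` of individual degree `≤ d` in `N`
variables with coefficients in `L`), `u = 0` at `x_i = p_i` for every `i`. If few of the `p_i` are
independent over `K`, then the `K`-span of the coefficients has dimension `≥ (4/3)^N`.
-/

set_option autoImplicit false

namespace Pool.Agent.AOI

open Submodule Module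

variable {K L : Type*} [Field K] [Field L] [Algebra K L]

/-- The span of the powers `p^l`, `l < m`. -/
def Pw (K : Type*) {L : Type*} [Field K] [Field L] [Algebra K L] (m : ℕ) (p : L) :
    Submodule K L :=
  span K (Set.range fun l : Fin m => p ^ (l : ℕ))

/-- The `K`-span of the entries of an array. -/
def Es (K : Type*) {L ι : Type*} [Field K] [Field L] [Algebra K L] (c : ι → L) : Submodule K L :=
  span K (Set.range c)

theorem pow_mem_Pw {m l : ℕ} (p : L) (h : l < m) : p ^ l ∈ Pw K m p :=
  subset_span ⟨⟨l, h⟩, rfl⟩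

theorem Pw_mono {m m' : ℕ} (p : L) (h : m ≤ m') : Pw K m p ≤ Pw K m' p := by
  refine span_le.2 ?_
  rintro _ ⟨l, rfl⟩
  exact pow_mem_Pw p (l.2.trans_le h)

instance Pw_fin (m : ℕ) (p : L) : FiniteDimensional K (Pw K m p) :=
  FiniteDimensional.span_of_finite K (Set.finite_range _)

instance Es_fin {ι : Type*} [Finite ι] (c : ι → L) : FiniteDimensional K (Es K c) :=
  FiniteDimensional.span_of_finite K (Set.finite_range _)

instance mul_fin (A B : Submodule K L) [FiniteDimensional K A] [FiniteDimensional K B] :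
    FiniteDimensional K (A * B : Submodule K L) := by
  rw [← Submodule.fg_iff_finiteDimensional] at *
  exact Submodule.FG.mul ‹_› ‹_›

theorem finrank_single_mul (q : L) (A : Submodule K L) [FiniteDimensional K A] :
    finrank K (span K {q} * A : Submodule K L) ≤ finrank K A := by
  have h : (span K {q} * A : Submodule K L) ≤ A.map (LinearMap.mulLeft K q) := by
    intro x hx
    rw [Submodule.mem_span_singleton_mul] at hx
    obtain ⟨z, hz, rfl⟩ := hx
    exact ⟨z, hz, rfl⟩
  exact (Submodule.finrank_mono h).trans (Submodule.finrank_map_le _ _)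

theorem sub_pow_mem (p : L) (b : K) {l j : ℕ} (h : l ≤ j) :
    p ^ l - algebraMap K L b ^ l ∈ (span K {p - algebraMap K L b} * Pw K j p : Submodule K L) := by
  have h1 := (Commute.all p (algebraMap K L b)).mul_geom_sum₂ l
  rw [← h1]
  refine Submodule.mul_mem_mul (Submodule.mem_span_singleton_self _) ?_
  refine Submodule.sum_mem _ fun i hi => ?_
  have hi' : i < l := Finset.mem_range.1 hi
  have h2 : p ^ i * algebraMap K L b ^ (l - 1 - i) = (b ^ (l - 1 - i)) • p ^ i := by
    rw [Algebra.smul_def, map_pow, mul_comm]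
  rw [h2]
  exact Submodule.smul_mem _ _ (pow_mem_Pw p (by omega))

theorem Pw_succ_le (p : L) (b : K) (j : ℕ) :
    Pw K (j + 1) p ≤ (span K {p - algebraMap K L b} * Pw K j p : Submodule K L) ⊔ 1 := by
  refine span_le.2 ?_
  rintro _ ⟨l, rfl⟩
  have h1 : p ^ (l : ℕ) = (p ^ (l : ℕ) - algebraMap K L b ^ (l : ℕ)) + algebraMap K L b ^ (l : ℕ) := by
    ring
  simp only
  rw [h1]
  refine Submodule.add_mem_sup (sub_pow_mem p b (by omega)) ?_
  rw [← map_pow]
  exact Submodule.algebraMap_mem _

/-- One more power costs at most the codimension of `V0`. -/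
theorem step_le (V V0 : Submodule K L) [FiniteDimensional K V] (hV0 : V0 ≤ V) (p : L) (b : K)
    (j : ℕ) (hq : V0 ≤ span K {p - algebraMap K L b} * (Pw K j p * V)) :
    finrank K (Pw K (j + 1) p * V : Submodule K L) + finrank K V0 ≤
      finrank K (Pw K j p * V : Submodule K L) + finrank K V := by
  set Q := span K {p - algebraMap K L b} with hQ
  have h1 : (Pw K (j + 1) p * V : Submodule K L) ≤ (Q * (Pw K j p * V)) ⊔ V := by
    refine (mul_le_mul' (Pw_succ_le p b j) le_rfl).trans ?_
    rw [Submodule.sup_mul, one_mul, mul_assoc]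
  have h2 := Submodule.finrank_sup_add_finrank_inf_eq (Q * (Pw K j p * V)) V
  have h3 : finrank K V0 ≤ finrank K ((Q * (Pw K j p * V)) ⊓ V : Submodule K L) :=
    Submodule.finrank_mono (le_inf hq hV0)
  have h4 := finrank_single_mul (p - algebraMap K L b) (Pw K j p * V)
  rw [← hQ] at h4
  have h5 := Submodule.finrank_mono h1
  omega

theorem step_triv (V : Submodule K L) [FiniteDimensional K V] (p : L) (j : ℕ) :
    finrank K (Pw K (j + 1) p * V : Submodule K L) ≤
      finrank K (Pw K j p * V : Submodule K L) + finrank K V := by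
  have := step_le V ⊥ bot_le p 0 j bot_le
  simpa using this

theorem Pw_zero_mul (V : Submodule K L) (p : L) : (Pw K 0 p * V : Submodule K L) = ⊥ := by
  have : Pw K 0 p = ⊥ := by
    unfold Pw
    rw [Set.range_eq_empty, span_empty]
  rw [this, Submodule.bot_mul]

/-- The estimate of the adjunction step. -/
theorem adj_le (V V0 : Submodule K L) [FiniteDimensional K V] (hV0 : V0 ≤ V) (p : L) (b : K)
    (d : ℕ) (hq : V0 ≤ span K {p - algebraMap K L b} * (Pw K d p * V)) (r : ℕ) :
    finrank K (Pw K (d + r) p * V : Submodule K L) + r * finrank K V0 ≤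
      (d + r) * finrank K V := by
  induction r with
  | zero =>
    simp only [zero_mul, add_zero]
    clear hq
    induction d with
    | zero =>
      rw [Pw_zero_mul]
      simp
    | succ e ih =>
      have ih' : finrank K (Pw K e p * V : Submodule K L) ≤ e * finrank K V := ih
      have := step_triv V p e
      calc finrank K (Pw K (e + 1) p * V : Submodule K L) ≤
          finrank K (Pw K e p * V : Submodule K L) + finrank K V := this
        _ ≤ e * finrank K V + finrank K V := by omega
        _ = (e + 1) * finrank K V := by ring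
  | succ r ih =>
    have hq' : V0 ≤ span K {p - algebraMap K L b} * (Pw K (d + r) p * V) := by
      refine hq.trans ?_
      exact mul_le_mul' le_rfl (mul_le_mul' (Pw_mono p (by omega)) le_rfl)
    have h1 := step_le V V0 hV0 p b (d + r) hq'
    have h2 : d + (r + 1) = d + r + 1 := by ring
    rw [h2]
    have h3 : (r + 1) * finrank K V0 = r * finrank K V0 + finrank K V0 := by ring
    have h4 : (d + r + 1) * finrank K V = (d + r) * finrank K V + finrank K V := by ring
    omega

/-! ## Arrays -/

/-- `u` vanishes at `x_i = p_i`. -/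
def Vans {N d : ℕ} (c : (Fin N → Fin (d + 1)) → L) (p : Fin N → L) : Prop :=
  ∀ (i : Fin N) (α : Fin N → Fin (d + 1)),
    ∑ j : Fin (d + 1), p i ^ (j : ℕ) * c (Function.update α i j) = 0

/-- The specialisation of the first variable at `b`. -/
def spec {N d : ℕ} (c : (Fin (N + 1) → Fin (d + 1)) → L) (b : K) : (Fin N → Fin (d + 1)) → L :=
  fun β => ∑ j : Fin (d + 1), algebraMap K L b ^ (j : ℕ) * c (Fin.cons j β)

theorem Vans.spec {N d : ℕ} {c : (Fin (N + 1) → Fin (d + 1)) → L} {p : Fin (N + 1) → L}
    (h : Vans c p) (b : K) : Vans (spec c b) (Fin.tail p) := by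
  intro i α
  unfold AOI.spec
  simp only [Finset.mul_sum]
  rw [Finset.sum_comm]
  refine Finset.sum_eq_zero fun j' _ => ?_
  have h1 := h i.succ (Fin.cons j' α)
  have h2 : ∀ j : Fin (d + 1), Function.update (Fin.cons j' α : Fin (N + 1) → Fin (d + 1)) i.succ j =
      Fin.cons j' (Function.update α i j) := by
    intro j
    rw [Fin.cons_update]
  simp only [h2] at h1
  have h3 : ∑ j : Fin (d + 1), Fin.tail p i ^ (j : ℕ) *
      (algebraMap K L b ^ (j' : ℕ) * c (Fin.cons j' (Function.update α i j))) =
      algebraMap K L b ^ (j' : ℕ) * ∑ j : Fin (d + 1), p i.succ ^ (j : ℕ) *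
        c (Fin.cons j' (Function.update α i j)) := by
    rw [Finset.mul_sum]
    refine Finset.sum_congr rfl fun j _ => ?_
    unfold Fin.tail
    ring
  rw [h3, h1, mul_zero]

theorem Es_spec_le {N d : ℕ} (c : (Fin (N + 1) → Fin (d + 1)) → L) (b : K) :
    Es K (spec c b) ≤ Es K c := by
  refine span_le.2 ?_
  rintro _ ⟨β, rfl⟩
  refine Submodule.sum_mem _ fun j _ => ?_
  rw [← map_pow, ← Algebra.smul_def]
  exact Submodule.smul_mem _ _ (subset_span ⟨_, rfl⟩)

theorem exists_spec_ne [Infinite K] {N d : ℕ} (c : (Fin (N + 1) → Fin (d + 1)) → L) (hc : c ≠ 0) :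
    ∃ b : K, spec c b ≠ 0 := by
  obtain ⟨α, hα⟩ := Function.ne_iff.1 hc
  set P : Polynomial L := ∑ j : Fin (d + 1), Polynomial.C (c (Fin.cons j (Fin.tail α))) *
    Polynomial.X ^ (j : ℕ) with hP
  have hP0 : P ≠ 0 := by
    intro h0
    have h1 : P.coeff (α 0 : ℕ) = c α := by
      rw [hP, Polynomial.finsetSum_coeff, Finset.sum_eq_single (α 0)]
      · rw [Polynomial.coeff_C_mul, Polynomial.coeff_X_pow, if_pos rfl, mul_one, Fin.cons_self_tail]
      · intro j _ hj
        rw [Polynomial.coeff_C_mul, Polynomial.coeff_X_pow, if_neg, mul_zero]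
        intro h
        exact hj (Fin.ext h.symm)
      · intro h
        exact absurd (Finset.mem_univ _) h
    rw [h0, Polynomial.coeff_zero] at h1
    exact hα h1.symm
  by_contra hcon
  push Not at hcon
  apply hP0
  refine Polynomial.eq_zero_of_infinite_isRoot P ?_
  refine Set.Infinite.mono ?_ (Set.infinite_range_of_injective
    (FaithfulSMul.algebraMap_injective K L))
  rintro _ ⟨b, rfl⟩
  have h2 := congrFun (hcon b) (Fin.tail α)
  rw [Set.mem_ofPred_eq, Polynomial.IsRoot.def, hP, Polynomial.eval_finsetSum]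
  rw [Pi.zero_apply] at h2
  rw [← h2]
  unfold spec
  refine Finset.sum_congr rfl fun j _ => ?_
  rw [Polynomial.eval_mul, Polynomial.eval_C, Polynomial.eval_pow, Polynomial.eval_X, mul_comm]

/-- The specialised array lies in `(p - b) * span(1, .., p^(d-1)) * (span of the entries)`. -/
theorem Es_spec_sub {N d : ℕ} {c : (Fin (N + 1) → Fin (d + 1)) → L} {p : Fin (N + 1) → L}
    (h : Vans c p) (b : K) :
    Es K (spec c b) ≤ span K {p 0 - algebraMap K L b} * (Pw K d (p 0) * Es K c) := by
  refine span_le.2 ?_
  rintro _ ⟨β, rfl⟩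
  have h1 := h 0 (Fin.cons 0 β)
  have h2 : ∀ j : Fin (d + 1), Function.update (Fin.cons 0 β : Fin (N + 1) → Fin (d + 1)) 0 j =
      Fin.cons j β := by
    intro j
    rw [Fin.update_cons_zero]
  simp only [h2] at h1
  have h3 : spec c b β = ∑ j : Fin (d + 1),
      (-(p 0 ^ (j : ℕ) - algebraMap K L b ^ (j : ℕ))) * c (Fin.cons j β) := by
    unfold spec
    have : ∑ j : Fin (d + 1), (-(p 0 ^ (j : ℕ) - algebraMap K L b ^ (j : ℕ))) * c (Fin.cons j β) =
      ∑ j : Fin (d + 1), algebraMap K L b ^ (j : ℕ) * c (Fin.cons j β) -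
      ∑ j : Fin (d + 1), p 0 ^ (j : ℕ) * c (Fin.cons j β) := by
      rw [← Finset.sum_sub_distrib]
      refine Finset.sum_congr rfl fun j _ => ?_
      ring
    rw [this, h1, sub_zero]
  rw [SetLike.mem_coe, h3]
  refine Submodule.sum_mem _ fun j _ => ?_
  rw [← mul_assoc]
  refine Submodule.mul_mem_mul ?_ (subset_span ⟨_, rfl⟩)
  refine Submodule.neg_mem _ ?_
  exact sub_pow_mem (p 0) b (Nat.lt_succ_iff.1 j.2)

theorem finrank_le_mul (M : Submodule K L) [FiniteDimensional K M] {ι : Type*} [Finite ι] (c : ι → L)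
    (hc : c ≠ 0) : finrank K M ≤ finrank K (M * Es K c : Submodule K L) := by
  obtain ⟨α, hα⟩ := Function.ne_iff.1 hc
  have h : M.map (LinearMap.mulRight K (c α)) ≤ M * Es K c := by
    rintro _ ⟨x, hx, rfl⟩
    exact Submodule.mul_mem_mul hx (subset_span ⟨α, rfl⟩)
  have hinj : Function.Injective (LinearMap.mulRight K (c α)) := mul_left_injective₀ hα
  calc finrank K M = finrank K (M.map (LinearMap.mulRight K (c α))) :=
        (LinearEquiv.finrank_eq (Submodule.equivMapOfInjective _ hinj M))
    _ ≤ _ := Submodule.finrank_mono h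

/-- Independence of few of the `p_i` over `K` (recursive form, `k` = number of adjunctions). -/
def Ind (m : ℕ) : (N : ℕ) → ℕ → (Fin N → L) → Submodule K L → Prop
  | 0, _, _, _ => True
  | N + 1, k, p, M => Ind m N k (Fin.tail p) M ∧ ∀ k', k = k' + 1 →
      finrank K (M * Pw K m (p 0) : Submodule K L) = m * finrank K M ∧
        Ind m N k' (Fin.tail p) (M * Pw K m (p 0))

theorem low [Infinite K] {d : ℕ} (hd : 1 ≤ d) : ∀ (N k : ℕ) (p : Fin N → L)
    (c : (Fin N → Fin (d + 1)) → L) (M : Submodule K L) [FiniteDimensional K M],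
    1 ≤ finrank K M → Ind (4 * d) N k p M → c ≠ 0 → Vans c p →
    finrank K (M * Es K c : Submodule K L) < 2 ^ k * finrank K M →
    4 ^ N * finrank K M ≤ 3 ^ N * finrank K (M * Es K c : Submodule K L) := by
  intro N
  induction N with
  | zero =>
    intro k p c M _ hM _ hc _ _
    simpa using finrank_le_mul M c hc
  | succ N ih =>
    intro k p c M _ hM hInd hc hv hlt
    obtain ⟨b, hb⟩ := exists_spec_ne (K := K) c hc
    set V : Submodule K L := M * Es K c with hV
    set V0 : Submodule K L := M * Es K (spec c b) with hV0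
    have hle : V0 ≤ V := mul_le_mul' le_rfl (Es_spec_le c b)
    have hρ : finrank K V0 ≤ finrank K V := Submodule.finrank_mono hle
    rcases le_or_gt (4 * finrank K V0) (3 * finrank K V) with hcase | hcase
    · have h1 := ih k (Fin.tail p) (spec c b) M hM hInd.1 hb (hv.spec b) (hρ.trans_lt hlt)
      rw [← hV0] at h1
      calc 4 ^ (N + 1) * finrank K M = 4 * (4 ^ N * finrank K M) := by ring
        _ ≤ 4 * (3 ^ N * finrank K V0) := Nat.mul_le_mul_left _ h1
        _ = 3 ^ N * (4 * finrank K V0) := by ring
        _ ≤ 3 ^ N * (3 * finrank K V) := Nat.mul_le_mul_left _ hcase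
        _ = 3 ^ (N + 1) * finrank K V := by ring
    · have hMV : finrank K M ≤ finrank K V := finrank_le_mul M c hc
      obtain ⟨k', rfl⟩ : ∃ k', k = k' + 1 := by
        rcases Nat.eq_zero_or_pos k with h | h
        · subst h
          simp at hlt
          omega
        · exact ⟨k - 1, by omega⟩
      obtain ⟨hM', hInd'⟩ := hInd.2 k' rfl
      set M' : Submodule K L := M * Pw K (4 * d) (p 0) with hM'def
      set V' : Submodule K L := M' * Es K (spec c b) with hV'
      have hVle : V' ≤ Pw K (4 * d) (p 0) * V := by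
        rw [hV', hM'def, mul_comm M, mul_assoc]
        exact mul_le_mul' le_rfl hle
      have hq : V0 ≤ span K {p 0 - algebraMap K L b} * (Pw K d (p 0) * V) := by
        have h2 : V0 ≤ M * (span K {p 0 - algebraMap K L b} * (Pw K d (p 0) * Es K c)) :=
          mul_le_mul' le_rfl (Es_spec_sub hv b)
        refine h2.trans (le_of_eq ?_)
        rw [hV]
        ring
      have hadj := adj_le V V0 hle (p 0) b d hq (3 * d)
      have h43 : d + 3 * d = 4 * d := by ring
      rw [h43] at hadj
      have hV'le : finrank K V' ≤ finrank K (Pw K (4 * d) (p 0) * V : Submodule K L) :=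
        Submodule.finrank_mono hVle
      -- `4 * finrank V' ≤ 7 * d * W`
      have h7 : 4 * finrank K V' ≤ 7 * d * finrank K V := by
        have h8 : 3 * d * (3 * finrank K V) ≤ 3 * d * (4 * finrank K V0) :=
          Nat.mul_le_mul_left _ hcase.le
        have h9 : 4 * (finrank K (Pw K (4 * d) (p 0) * V : Submodule K L) +
            3 * d * finrank K V0) ≤ 4 * (4 * d * finrank K V) := Nat.mul_le_mul_left _ hadj
        nlinarith
      have hlt' : finrank K V' < 2 ^ k' * finrank K M' := by
        rw [hM']
        have h10 : 7 * d * finrank K V < 7 * d * (2 ^ (k' + 1) * finrank K M) :=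
          Nat.mul_lt_mul_of_pos_left hlt (by positivity)
        have h11 : 7 * d * (2 ^ (k' + 1) * finrank K M) ≤
            4 * (2 ^ k' * (4 * d * finrank K M)) := by
          have : 7 * d * (2 ^ (k' + 1) * finrank K M) = 14 * (d * 2 ^ k' * finrank K M) := by
            rw [pow_succ]; ring
          have h12 : 4 * (2 ^ k' * (4 * d * finrank K M)) = 16 * (d * 2 ^ k' * finrank K M) := by
            ring
          omega
        omega
      have h1 := ih k' (Fin.tail p) (spec c b) M' (by rw [hM']; exact Nat.mul_pos (by omega) hM)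
        hInd' hb (hv.spec b) (by rw [← hV']; exact hlt')
      rw [← hV', hM'] at h1
      have h13 : 4 * d * (4 ^ (N + 1) * finrank K M) ≤ 4 * d * (3 ^ (N + 1) * finrank K V) := by
        calc 4 * d * (4 ^ (N + 1) * finrank K M) = 4 * (4 ^ N * (4 * d * finrank K M)) := by ring
          _ ≤ 4 * (3 ^ N * finrank K V') := Nat.mul_le_mul_left _ h1
          _ = 3 ^ N * (4 * finrank K V') := by ring
          _ ≤ 3 ^ N * (7 * d * finrank K V) := Nat.mul_le_mul_left _ h7
          _ ≤ 3 ^ N * (12 * d * finrank K V) := by gcongr; norm_num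
          _ = 4 * d * (3 ^ (N + 1) * finrank K V) := by ring
      exact Nat.le_of_mul_le_mul_left h13 (by omega)

end Pool.Agent.AOI
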