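import Pool.Agent.AOR.Defs
import Pool.Agent.AOI.Low

/-!
Project AOI (MP_e2be99_lc): explicit hitting sets for polynomials of individual degree at most `d`
all of whose flattenings have rank at most `w` (read-once programs in any order).  Definitions.
-/

set_option autoImplicit false

namespace Pool.Agent.AOI

open MvPolynomial
open Pool.Agent.SPD (hitPt)

/-- `f` is a sum of `w` products of a polynomial in the variables in `S` and a polynomial in the
other variables: the flattening of `f` with respect to `S` has rank at most `w`. -/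
def Cut {K : Type*} [Field K] {n : ℕ} (w : ℕ) (S : Finset (Fin n))
    (f : MvPolynomial (Fin n) K) : Prop :=
  ∃ g h : Fin w → MvPolynomial (Fin n) K,
    (∀ k, (g k).vars ⊆ S) ∧ (∀ k, (h k).vars ⊆ Sᶜ) ∧ f = ∑ k, g k * h k

/-- All flattenings of `f` have rank at most `w`. -/
def Cuts {K : Type*} [Field K] {n : ℕ} (w : ℕ) (f : MvPolynomial (Fin n) K) : Prop :=
  ∀ S : Finset (Fin n), Cut w S f

/-- `f (P + x)`. -/
noncomputable def sh {K R : Type*} [CommRing K] [CommRing R] [Algebra K R] {n : ℕ}
    (f : MvPolynomial (Fin n) K) (P : Fin n → R) : MvPolynomial (Fin n) R :=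
  aeval (fun i => C (P i) + X i) f

/-- `f` at `x_i = P_i` for `i` outside `T`. -/
noncomputable def ps {K R : Type*} [CommRing K] [CommRing R] [Algebra K R] {n : ℕ}
    (f : MvPolynomial (Fin n) K) (P : Fin n → R) (T : Finset (Fin n)) : MvPolynomial (Fin n) R :=
  aeval (fun i => if i ∈ T then X i else C (P i)) f

/-- The product of the spaces of powers `P_i^l`, `l < m`, `i ∈ A`, has the expected dimension
for all sets `A` with at most `k` elements. -/
def IndP (K : Type*) {L : Type*} [Field K] [Field L] [Algebra K L] (m k : ℕ) {n : ℕ}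
    (P : Fin n → L) : Prop :=
  ∀ A : Finset (Fin n), A.card ≤ k →
    Module.finrank K (∏ i ∈ A, Pw K m (P i) : Submodule K L) = m ^ A.card

/-- The base curve in the field of rational functions. -/
noncomputable def gL (K : Type*) [Field K] (n s : ℕ) (i : Fin n) :
    FractionRing (Polynomial K) :=
  algebraMap (Polynomial K) (FractionRing (Polynomial K)) (AOR.gm n s i)

/-- The exponent vector `∑_(i ∈ V) β_(h i) e_i`. -/
noncomputable def ex {n c : ℕ} (β : Fin c → ℕ) (h : Fin n → Fin c) (V : Finset (Fin n)) :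
    Fin n →₀ ℕ :=
  ∑ i ∈ V, Finsupp.single i (β (h i))

/-- The coefficients of `F` at the exponent vectors `ex β h V`. -/
noncomputable def arr {K : Type*} [Field K] {n c : ℕ} (F : MvPolynomial (Fin n) K)
    (β : Fin c → ℕ) (h : Fin n → Fin c) (V : Finset (Fin n)) : K :=
  coeff (ex β h V) F

/-- The polynomial in the colour variables `y` obtained by `x_i = z_i y_(h i)`. -/
noncomputable def R {K : Type*} [Field K] {n c : ℕ} (F : MvPolynomial (Fin n) K)
    (h : Fin n → Fin c) (z : Fin n → K) : MvPolynomial (Fin c) K :=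
  aeval (fun i => C (z i) * X (h i)) F

/-- `∏_(i ∈ U) χ_i` times the sum of `a (U ∪ V)` over the sets `V` with exactly one element in
every colour in `D` and none in the other colours. -/
noncomputable def acc {K : Type*} [Field K] {n c : ℕ} (a : Finset (Fin n) → K)
    (h : Fin n → Fin c) (χ : Fin n → K) (D : Finset (Fin c)) (U : Finset (Fin n)) : K :=
  open Classical in
  (∏ i ∈ U, χ i) * ∑ V ∈ Finset.univ.filter (fun V : Finset (Fin n) =>
      Set.InjOn h (V : Set (Fin n)) ∧ V.image h = D), a (U ∪ V)

/-- The sum of `a V` over the sets `V ⊇ U` with exactly one element in every colour in `E` and none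
in the other colours. -/
noncomputable def SU {K : Type*} [Field K] {n c : ℕ} (a : Finset (Fin n) → K)
    (h : Fin n → Fin c) (E : Finset (Fin c)) (U : Finset (Fin n)) : K :=
  open Classical in
  ∑ V ∈ Finset.univ.filter (fun V : Finset (Fin n) =>
      (Set.InjOn h (V : Set (Fin n)) ∧ V.image h = E) ∧ U ⊆ V), a V

/-- The part of degree `l` of `∑_U SU_U ∏_(i ∈ U) (χ_i x_i + ..)`. -/
noncomputable def Lam {K : Type*} [Field K] {n c : ℕ} (a : Finset (Fin n) → K)
    (h : Fin n → Fin c) (E : Finset (Fin c)) (χ : Fin n → K) (l : ℕ) :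
    MvPolynomial (Fin n) K :=
  ∑ U ∈ Finset.univ.filter (fun U : Finset (Fin n) => U.card = l),
    C (SU a h E U * ∏ i ∈ U, χ i) * ∏ i ∈ U, X i

/-! ## The points -/

/-- Number of adjunctions. -/
def k0 (w : ℕ) : ℕ := Nat.log 2 w + 1

/-- Bound for the degree (and the support) of the exponent vector found. -/
def KK (d w : ℕ) : ℕ := d * (3 * k0 w)

/-- Dimension of the space of monomials for the base curve. -/
def s1 (d w : ℕ) : ℕ := (4 * d) ^ k0 w

/-- Dimension of the derivative space for the second curve. -/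
def s2 (d w : ℕ) : ℕ := w * 4 ^ KK d w

/-- The point with the given parameters. -/
def point (n d w t u v' r v : ℕ) (h : Fin n → Fin (AOR.ncol (KK d w))) (i : Fin n) : ℕ :=
  hitPt (n * s1 d w ^ 2) ((i : ℕ) + 1) t +
    (1 + v' * hitPt (n * s2 d w ^ 2) ((i : ℕ) + 1) u) *
      (v * hitPt (AOR.M3 (KK d w)) ((h i : ℕ) + 1) r)

/-- The hitting set. -/
def points (n d w : ℕ) : Finset (Fin n → ℕ) :=
  (Finset.range (n * d * (n * s1 d w ^ 2) + 1) ×ˢ
    (Finset.range (KK d w * (n * s2 d w ^ 2) + 1) ×ˢ
      (Finset.range (KK d w + 1) ×ˢ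
        (Finset.range (KK d w * AOR.M3 (KK d w) + 1) ×ˢ
          (Finset.range (n * d + 1) ×ˢ AOR.family n (KK d w)))))).image
    (fun q => point n d w q.1 q.2.1 q.2.2.1 q.2.2.2.1 q.2.2.2.2.1 q.2.2.2.2.2)

end Pool.Agent.AOI
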