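import Pool.Agent.AOI.Defs

set_option autoImplicit false

namespace Pool.Agent.AOI

open MvPolynomial
open Pool.Agent.SPD (hitPt)

theorem coeff_sh_map {K A B : Type*} [CommRing K] [CommRing A] [CommRing B] [Algebra K A]
    [Algebra K B] {n : ℕ} (f : MvPolynomial (Fin n) K) (φ : A →ₐ[K] B) (P : Fin n → A)
    (a : Fin n →₀ ℕ) :
    coeff a (sh f (fun i => φ (P i))) = φ (coeff a (sh f P)) := by
  have h : (mapAlgHom φ).comp (aeval (R := K) (fun i => C (P i) + X i)) =
      aeval (R := K) (fun i : Fin n => (C (φ (P i)) + X i : MvPolynomial (Fin n) B)) := by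
    refine algHom_ext fun i => ?_
    rw [AlgHom.comp_apply, aeval_X, aeval_X, map_add, mapAlgHom_apply, mapAlgHom_apply]
    simp
  have h2 := congrArg (fun ψ => coeff a (ψ f)) h
  simp only [AlgHom.comp_apply] at h2
  unfold sh
  rw [← h2, mapAlgHom_apply, coeff_map]
  rfl

/-- all coefficients have degree at most `D` -/
private def extB {K : Type*} [Field K] {n : ℕ} (D : ℕ)
    (q : MvPolynomial (Fin n) (Polynomial K)) : Prop :=
  ∀ a, (coeff a q).natDegree ≤ D

private theorem extB_mono {K : Type*} [Field K] {n D D' : ℕ}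
    {q : MvPolynomial (Fin n) (Polynomial K)} (h : extB D q) (hD : D ≤ D') : extB D' q :=
  fun a => (h a).trans hD

private theorem extB_sum {K : Type*} [Field K] {n D : ℕ} {ι : Type*} (s : Finset ι)
    (q : ι → MvPolynomial (Fin n) (Polynomial K)) (h : ∀ i ∈ s, extB D (q i)) :
    extB D (∑ i ∈ s, q i) := by
  intro a
  rw [coeff_sum]
  exact Polynomial.natDegree_sum_le_of_forall_le _ _ fun i hi => h i hi a

private theorem extB_mul {K : Type*} [Field K] {n D D' : ℕ}
    {p q : MvPolynomial (Fin n) (Polynomial K)} (hp : extB D p) (hq : extB D' q) :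
    extB (D + D') (p * q) := by
  classical
  intro a
  rw [coeff_mul]
  refine Polynomial.natDegree_sum_le_of_forall_le _ _ fun x _ => ?_
  exact Polynomial.natDegree_mul_le.trans (Nat.add_le_add (hp _) (hq _))

private theorem extB_C {K : Type*} [Field K] {n : ℕ} (c : Polynomial K) :
    extB c.natDegree (C c : MvPolynomial (Fin n) (Polynomial K)) := by
  classical
  intro a
  rw [coeff_C]
  split_ifs
  · exact le_rfl
  · simp

private theorem extB_X {K : Type*} [Field K] {n : ℕ} (i : Fin n) :
    extB 0 (X i : MvPolynomial (Fin n) (Polynomial K)) := by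
  classical
  intro a
  rw [coeff_X]
  split_ifs <;> simp

private theorem extB_add {K : Type*} [Field K] {n D : ℕ}
    {p q : MvPolynomial (Fin n) (Polynomial K)} (hp : extB D p) (hq : extB D q) :
    extB D (p + q) := by
  intro a
  rw [coeff_add]
  exact (Polynomial.natDegree_add_le _ _).trans (max_le (hp a) (hq a))

private theorem extB_pow {K : Type*} [Field K] {n D : ℕ}
    {p : MvPolynomial (Fin n) (Polynomial K)} (hp : extB D p) (k : ℕ) :
    extB (k * D) (p ^ k) := by
  induction k with
  | zero =>
    rw [pow_zero, zero_mul]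
    have := extB_C (n := n) (1 : Polynomial K)
    rwa [map_one, Polynomial.natDegree_one] at this
  | succ k ih =>
    rw [pow_succ, Nat.succ_mul]
    exact extB_mul ih hp

private theorem extB_prod {K : Type*} [Field K] {n : ℕ} {ι : Type*} (s : Finset ι) (D : ι → ℕ)
    (p : ι → MvPolynomial (Fin n) (Polynomial K)) (h : ∀ i ∈ s, extB (D i) (p i)) :
    extB (∑ i ∈ s, D i) (∏ i ∈ s, p i) := by
  classical
  induction s using Finset.induction_on with
  | empty =>
    rw [Finset.sum_empty, Finset.prod_empty]
    have := extB_C (n := n) (1 : Polynomial K)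
    rwa [map_one, Polynomial.natDegree_one] at this
  | insert a s ha ih =>
    rw [Finset.sum_insert ha, Finset.prod_insert ha]
    exact extB_mul (h a (Finset.mem_insert_self _ _))
      (ih fun i hi => h i (Finset.mem_insert_of_mem hi))

theorem natDegree_sh {K : Type*} [Field K] {n d M : ℕ} (f : MvPolynomial (Fin n) K)
    (hd : ∀ i, f.degreeOf i ≤ d) (P : Fin n → Polynomial K) (hP : ∀ i, (P i).natDegree ≤ M)
    (a : Fin n →₀ ℕ) : (coeff a (sh f P)).natDegree ≤ n * d * M := by
  have key : extB (n * d * M) (sh f P) := by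
    unfold sh
    rw [aeval_def, eval₂_eq']
    refine extB_sum _ _ fun b hb => ?_
    have h1 : extB 0 (algebraMap K (MvPolynomial (Fin n) (Polynomial K)) (coeff b f)) := by
      rw [MvPolynomial.algebraMap_apply]
      refine extB_mono (extB_C _) ?_
      rw [Polynomial.algebraMap_apply, Polynomial.natDegree_C]
    have h2 : extB (∑ i : Fin n, b i * M) (∏ i : Fin n, (C (P i) + X i) ^ b i) :=
      extB_prod _ _ _ fun i _ => extB_pow
        (extB_add (extB_mono (extB_C _) (hP i)) (extB_mono (extB_X i) (Nat.zero_le _))) _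
    refine extB_mono (extB_mul h1 h2) ?_
    rw [zero_add]
    refine (Finset.sum_le_card_nsmul _ _ (d * M) fun i _ => ?_).trans ?_
    · refine Nat.mul_le_mul_right _ ((le_trans ?_ (hd i)))
      exact monomial_le_degreeOf i hb
    · rw [Finset.card_univ, Fintype.card_fin, smul_eq_mul, mul_assoc]
  exact key a

theorem exists_t {K : Type*} [Field K] [CharZero K] {n d s : ℕ} (f : MvPolynomial (Fin n) K)
    (hd : ∀ i, f.degreeOf i ≤ d) (a : Fin n →₀ ℕ) (ha : coeff a (sh f (gL K n s)) ≠ 0) :
    ∃ t ≤ n * d * (n * s ^ 2),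
      coeff a (sh f (fun i : Fin n => ((hitPt (n * s ^ 2) ((i : ℕ) + 1) t : ℕ) : K))) ≠ 0 := by
  have hg : ∀ i, (AOR.gm (K := K) n s i).natDegree ≤ n * s ^ 2 := by
    intro i
    unfold AOR.gm SPD.gamT
    refine Polynomial.natDegree_sum_le_of_forall_le _ _ fun k hk => ?_
    exact (Polynomial.natDegree_C_mul_X_pow_le _ _).trans
      (Nat.lt_succ_iff.1 (Finset.mem_range.1 hk))
  have hne : coeff a (sh f (AOR.gm (K := K) n s)) ≠ 0 := by
    intro h0
    apply ha
    have h1 := coeff_sh_map f
      (IsScalarTower.toAlgHom K (Polynomial K) (FractionRing (Polynomial K))) (AOR.gm n s) a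
    rw [h0, map_zero] at h1
    exact h1
  have hdeg := natDegree_sh f hd (AOR.gm (K := K) n s) hg a
  by_contra hcon
  push Not at hcon
  apply hne
  classical
  refine Polynomial.eq_zero_of_natDegree_lt_card_of_eval_eq_zero' _
    ((Finset.range (n * d * (n * s ^ 2) + 1)).image (fun t : ℕ => (t : K))) ?_ ?_
  · intro x hx
    obtain ⟨t, ht, rfl⟩ := Finset.mem_image.1 hx
    have h1 := hcon t (Nat.lt_succ_iff.1 (Finset.mem_range.1 ht))
    have h2 := coeff_sh_map f (Polynomial.aeval (t : K)) (AOR.gm n s) a
    rw [Polynomial.coe_aeval_eq_eval] at h2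
    rw [← h2, ← h1]
    congr 2
    funext i
    exact (SPD.gamT_eval (n * s ^ 2) ((i : ℕ) + 1) t)
  · rw [Finset.card_image_of_injective _ Nat.cast_injective, Finset.card_range]
    exact Nat.lt_succ_of_le hdeg

end Pool.Agent.AOI
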