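import Pool.Agent.AOI.Defs

set_option autoImplicit false

namespace Pool.Agent.AOI

open Pool.Agent.SPD

/- Copy of `AOR.finrank_H` (file `AOR/HDer.lean`): the rank bound is only used for unions of colour classes. -/

/-- the derivative of `AOR.Hpoly` with respect to the variables in `U` -/
private noncomputable def oh2D {K : Type*} [Field K] {n c : ℕ} (a : Finset (Fin n) → K)
    (h : Fin n → Fin c) (E : Finset (Fin c)) (U : Finset (Fin n)) : MvPolynomial (Fin n) K :=
  open Classical in
  ∑ V ∈ Finset.univ.filter (fun V : Finset (Fin n) =>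
      Set.InjOn h (V : Set (Fin n)) ∧ V.image h = E \ U.image h),
    MvPolynomial.C (a (U ∪ V)) * ∏ i ∈ V, MvPolynomial.X i

private theorem oh2D_empty {K : Type*} [Field K] {n c : ℕ} (a : Finset (Fin n) → K)
    (h : Fin n → Fin c) (E : Finset (Fin c)) : oh2D a h E ∅ = AOR.Hpoly a h E := by
  unfold oh2D AOR.Hpoly
  rw [Finset.image_empty, Finset.sdiff_empty]
  refine Finset.sum_congr rfl fun V _ => ?_
  rw [Finset.empty_union]

private theorem oh2der_prod_notMem {K : Type*} [Field K] {n : ℕ} (k : Fin n) (V : Finset (Fin n)) (hk : k ∉ V) :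
    MvPolynomial.pderiv k (∏ i ∈ V, MvPolynomial.X i : MvPolynomial (Fin n) K) = 0 := by
  classical
  induction V using Finset.induction_on with
  | empty =>
    rw [Finset.prod_empty]
    exact Derivation.map_one_eq_zero _
  | insert i V hi ih =>
    rw [Finset.mem_insert, not_or] at hk
    rw [Finset.prod_insert hi, MvPolynomial.pderiv_mul, ih hk.2,
      MvPolynomial.pderiv_X_of_ne (Ne.symm hk.1), zero_mul, mul_zero, add_zero]

private theorem oh2der_prod_mem {K : Type*} [Field K] {n : ℕ} (k : Fin n) (V : Finset (Fin n)) (hk : k ∈ V) :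
    MvPolynomial.pderiv k (∏ i ∈ V, MvPolynomial.X i : MvPolynomial (Fin n) K) =
      ∏ i ∈ V.erase k, MvPolynomial.X i := by
  classical
  rw [← Finset.mul_prod_erase V _ hk, MvPolynomial.pderiv_mul, MvPolynomial.pderiv_X_self,
    oh2der_prod_notMem k _ (Finset.notMem_erase k V), one_mul, mul_zero, add_zero]

private theorem oh2der_C {K : Type*} [Field K] {n : ℕ} (k : Fin n) (r : K) (f : MvPolynomial (Fin n) K) :
    MvPolynomial.pderiv k (MvPolynomial.C r * f) = MvPolynomial.C r * MvPolynomial.pderiv k f := by
  rw [MvPolynomial.pderiv_mul, MvPolynomial.pderiv_C, zero_mul, zero_add]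

private theorem oh2D_pderiv_zero {K : Type*} [Field K] {n c : ℕ} (a : Finset (Fin n) → K)
    (h : Fin n → Fin c) (E : Finset (Fin c)) (U : Finset (Fin n)) (k : Fin n) (hk : h k ∉ E \ U.image h) :
    MvPolynomial.pderiv k (oh2D a h E U) = 0 := by
  classical
  unfold oh2D
  rw [map_sum]
  refine Finset.sum_eq_zero fun V hV => ?_
  rw [Finset.mem_filter] at hV
  rw [oh2der_C, oh2der_prod_notMem k V, mul_zero]
  intro hkV
  apply hk
  rw [← hV.2.2]
  exact Finset.mem_image_of_mem h hkV

private theorem oh2D_pderiv {K : Type*} [Field K] {n c : ℕ} (a : Finset (Fin n) → K)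
    (h : Fin n → Fin c) (E : Finset (Fin c)) (U : Finset (Fin n)) (k : Fin n) (hk : h k ∈ E \ U.image h) :
    MvPolynomial.pderiv k (oh2D a h E U) = oh2D a h E (insert k U) := by
  classical
  unfold oh2D
  rw [map_sum]
  rw [← Finset.sum_filter_add_sum_filter_not _ (fun V : Finset (Fin n) => k ∈ V)]
  rw [Finset.sum_eq_zero (s := Finset.filter (fun V : Finset (Fin n) => ¬ k ∈ V) _), add_zero]
  · refine Finset.sum_bij' (fun V _ => V.erase k) (fun V _ => insert k V) ?_ ?_ ?_ ?_ ?_
    · intro V hV
      rw [Finset.mem_filter, Finset.mem_filter] at hV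
      obtain ⟨⟨_, hinj, him⟩, hkV⟩ := hV
      rw [Finset.mem_filter]
      refine ⟨Finset.mem_univ _, hinj.mono (by simp), ?_⟩
      ext j
      rw [Finset.mem_image, Finset.mem_sdiff, Finset.image_insert, Finset.mem_insert]
      constructor
      · rintro ⟨i, hi, rfl⟩
        rw [Finset.mem_erase] at hi
        have h1 : h i ∈ E \ U.image h := by
          rw [← him]
          exact Finset.mem_image_of_mem h hi.2
        rw [Finset.mem_sdiff] at h1
        refine ⟨h1.1, ?_⟩
        rintro (h2 | h2)
        · exact hi.1 (hinj (Finset.mem_coe.mpr hi.2) (Finset.mem_coe.mpr hkV) h2)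
        · exact h1.2 h2
      · rintro ⟨h1, h2⟩
        rw [not_or] at h2
        have h3 : j ∈ V.image h := by
          rw [him, Finset.mem_sdiff]
          exact ⟨h1, h2.2⟩
        obtain ⟨i, hi, hij⟩ := Finset.mem_image.mp h3
        refine ⟨i, Finset.mem_erase.mpr ⟨?_, hi⟩, hij⟩
        rintro rfl
        exact h2.1 hij.symm
    · intro V hV
      rw [Finset.mem_filter] at hV
      obtain ⟨_, hinj, him⟩ := hV
      rw [Finset.mem_filter, Finset.mem_filter]
      have hkV : h k ∉ V.image h := by
        rw [him, Finset.mem_sdiff, Finset.image_insert]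
        intro h1
        exact h1.2 (Finset.mem_insert_self _ _)
      refine ⟨⟨Finset.mem_univ _, ?_, ?_⟩, Finset.mem_insert_self k V⟩
      · rw [Finset.coe_insert]
        intro x hx y hy hxy
        rcases hx with rfl | hx <;> rcases hy with rfl | hy
        · rfl
        · exfalso
          apply hkV
          rw [hxy]
          exact Finset.mem_image_of_mem h hy
        · exfalso
          apply hkV
          rw [← hxy]
          exact Finset.mem_image_of_mem h hx
        · exact hinj hx hy hxy
      · rw [Finset.image_insert, him, Finset.image_insert]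
        rw [Finset.mem_sdiff] at hk
        ext j
        rw [Finset.mem_insert, Finset.mem_sdiff, Finset.mem_sdiff, Finset.mem_insert]
        constructor
        · rintro (rfl | h1)
          · exact hk
          · exact ⟨h1.1, fun h2 => h1.2 (Or.inr h2)⟩
        · rintro ⟨h1, h2⟩
          by_cases hj : j = h k
          · exact Or.inl hj
          · exact Or.inr ⟨h1, fun h3 => h3.elim hj h2⟩
    · intro V hV
      rw [Finset.mem_filter] at hV
      exact Finset.insert_erase hV.2
    · intro V hV
      rw [Finset.mem_filter] at hV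
      refine Finset.erase_insert ?_
      intro hkV
      have h1 : h k ∈ V.image h := Finset.mem_image_of_mem h hkV
      rw [hV.2.2, Finset.mem_sdiff, Finset.image_insert] at h1
      exact h1.2 (Finset.mem_insert_self _ _)
    · intro V hV
      rw [Finset.mem_filter] at hV
      rw [oh2der_C, oh2der_prod_mem k V hV.2]
      congr 3
      ext i
      simp only [Finset.mem_union, Finset.mem_insert, Finset.mem_erase]
      constructor
      · rintro (h1 | h1)
        · exact Or.inl (Or.inr h1)
        · by_cases hik : i = k
          · exact Or.inl (Or.inl hik)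
          · exact Or.inr ⟨hik, h1⟩
      · rintro ((h1 | h1) | h1)
        · rw [h1]
          exact Or.inr hV.2
        · exact Or.inl h1
        · exact Or.inr h1.2
  · intro V hV
    rw [Finset.mem_filter] at hV
    rw [oh2der_C, oh2der_prod_notMem k V hV.2, mul_zero]

/-- the span of the derivatives with respect to sets of variables with colours `A` -/
private noncomputable def oh2W {K : Type*} [Field K] {n c : ℕ} (a : Finset (Fin n) → K)
    (h : Fin n → Fin c) (E : Finset (Fin c)) (A : Finset (Fin c)) : Submodule K (MvPolynomial (Fin n) K) :=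
  Submodule.span K ((fun U => oh2D a h E U) '' {U | Set.InjOn h (U : Set (Fin n)) ∧ U.image h = A})

/-- the linear map from the rows -/
private noncomputable def oh2L {K : Type*} [Field K] {n c : ℕ} (h : Fin n → Fin c) (B : Finset (Fin c)) :
    (Finset (Fin n) → K) →ₗ[K] MvPolynomial (Fin n) K :=
  open Classical in
  ∑ V ∈ Finset.univ.filter (fun V : Finset (Fin n) => Set.InjOn h (V : Set (Fin n)) ∧ V.image h = B),
    (LinearMap.toSpanSingleton K (MvPolynomial (Fin n) K) (∏ i ∈ V, MvPolynomial.X i)).comp
      (LinearMap.proj V)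

private theorem oh2L_apply {K : Type*} [Field K] {n c : ℕ} (h : Fin n → Fin c) (B : Finset (Fin c))
    (r : Finset (Fin n) → K) : oh2L h B r =
      open Classical in
      ∑ V ∈ Finset.univ.filter (fun V : Finset (Fin n) => Set.InjOn h (V : Set (Fin n)) ∧ V.image h = B),
        MvPolynomial.C (r V) * ∏ i ∈ V, MvPolynomial.X i := by
  classical
  unfold oh2L
  rw [LinearMap.sum_apply]
  refine Finset.sum_congr rfl fun V _ => ?_
  rw [LinearMap.comp_apply, LinearMap.toSpanSingleton_apply, LinearMap.proj_apply, MvPolynomial.smul_eq_C_mul]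

private theorem oh2D_eq {K : Type*} [Field K] {n c : ℕ} (a : Finset (Fin n) → K)
    (h : Fin n → Fin c) (E A : Finset (Fin c)) (U : Finset (Fin n)) (hU : U.image h = A) :
    oh2D a h E U = oh2L h (E \ A) (AOR.row a (Finset.univ.filter fun i => h i ∈ A) U) := by
  classical
  rw [oh2L_apply]
  unfold oh2D
  rw [hU]
  refine Finset.sum_congr rfl fun V hV => ?_
  rw [Finset.mem_filter] at hV
  congr 2
  unfold AOR.row
  congr 1
  ext i
  simp only [Finset.mem_union, Finset.mem_inter, Finset.mem_filter, Finset.mem_univ, true_and, Finset.mem_sdiff]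
  constructor
  · rintro (h1 | h1)
    · left
      refine ⟨h1, ?_⟩
      rw [← hU]
      exact Finset.mem_image_of_mem h h1
    · right
      refine ⟨h1, fun h2 => ?_⟩
      have h3 : h i ∈ V.image h := Finset.mem_image_of_mem h h1
      rw [hV.2.2, Finset.mem_sdiff] at h3
      exact h3.2 h2
  · rintro (h1 | h1)
    · exact Or.inl h1.1
    · exact Or.inr h1.1

private theorem oh2W_le {K : Type*} [Field K] {n c : ℕ} (a : Finset (Fin n) → K)
    (h : Fin n → Fin c) (E A : Finset (Fin c)) :
    oh2W a h E A ≤ (Submodule.span K (Set.range (AOR.row a (Finset.univ.filter fun i => h i ∈ A)))).map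
      (oh2L h (E \ A)) := by
  unfold oh2W
  rw [Submodule.span_le]
  rintro _ ⟨U, hU, rfl⟩
  rw [SetLike.mem_coe]
  show oh2D a h E U ∈ _
  rw [oh2D_eq a h E A U hU.2]
  exact Submodule.mem_map_of_mem (Submodule.subset_span ⟨U, rfl⟩)

private theorem oh2W_finite {K : Type*} [Field K] {n c : ℕ} (a : Finset (Fin n) → K)
    (h : Fin n → Fin c) (E A : Finset (Fin c)) : FiniteDimensional K (oh2W a h E A) := by
  unfold oh2W
  exact FiniteDimensional.span_of_finite K (Set.toFinite _)

private theorem oh2W_finrank {K : Type*} [Field K] {n c w : ℕ} (a : Finset (Fin n) → K)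
    (h : Fin n → Fin c) (hw : ∀ B : Finset (Fin c), Module.finrank K (Submodule.span K
      (Set.range (AOR.row a (Finset.univ.filter fun i => h i ∈ B)))) ≤ w)
    (E A : Finset (Fin c)) : Module.finrank K (oh2W a h E A) ≤ w := by
  refine le_trans (Submodule.finrank_mono (oh2W_le a h E A)) ?_
  exact le_trans (Submodule.finrank_map_le _ _) (hw _)

private theorem oh2der_sup {K M : Type*} [Field K] [AddCommGroup M] [Module K M] {ι : Type*} (w : ℕ)
    (W : ι → Submodule K M) (h1 : ∀ i, FiniteDimensional K (W i)) (h2 : ∀ i, Module.finrank K (W i) ≤ w)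
    (s : Finset ι) : FiniteDimensional K (s.sup W : Submodule K M) ∧
      Module.finrank K (s.sup W : Submodule K M) ≤ w * s.card := by
  classical
  induction s using Finset.induction_on with
  | empty =>
    rw [Finset.sup_empty]
    refine ⟨inferInstance, ?_⟩
    rw [finrank_bot]
    exact Nat.zero_le _
  | insert i s hi ih =>
    rw [Finset.sup_insert, Finset.card_insert_of_notMem hi]
    have i1 := ih.1
    have i2 := h1 i
    refine ⟨Submodule.finite_sup _ _, ?_⟩
    refine le_trans (Submodule.finrank_add_le_finrank_add_finrank _ _) ?_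
    have h3 := h2 i
    have h4 := ih.2
    rw [Nat.mul_add, Nat.mul_one]
    omega

theorem finrank_H' {K : Type*} [Field K] {n c w : ℕ} (a : Finset (Fin n) → K)
    (h : Fin n → Fin c) (hw : ∀ B : Finset (Fin c), Module.finrank K (Submodule.span K
      (Set.range (AOR.row a (Finset.univ.filter fun i => h i ∈ B)))) ≤ w) (E : Finset (Fin c)) :
    Module.finrank K (derivSpace (AOR.Hpoly a h E)) ≤ w * 2 ^ E.card := by
  classical
  obtain ⟨h1, h2⟩ := oh2der_sup w (oh2W a h E) (oh2W_finite a h E) (oh2W_finrank a h hw E) E.powerset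
  rw [Finset.card_powerset] at h2
  have i1 := h1
  refine le_trans (Submodule.finrank_mono ?_) h2
  have hmem : ∀ U : Finset (Fin n), Set.InjOn h (U : Set (Fin n)) → U.image h ⊆ E →
      oh2D a h E U ∈ (E.powerset.sup (oh2W a h E) : Submodule K (MvPolynomial (Fin n) K)) := by
    intro U hU1 hU2
    have h3 : oh2W a h E (U.image h) ≤ E.powerset.sup (oh2W a h E) :=
      Finset.le_sup (Finset.mem_powerset.mpr hU2)
    exact h3 (Submodule.subset_span ⟨U, ⟨hU1, rfl⟩, rfl⟩)
  refine derivSpace_le _ _ ?_ ?_
  · rw [← oh2D_empty]
    exact hmem ∅ (by simp) (by simp)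
  · intro g hg k
    have h3 : (E.powerset.sup (oh2W a h E) : Submodule K (MvPolynomial (Fin n) K)) ≤
        (E.powerset.sup (oh2W a h E) : Submodule K (MvPolynomial (Fin n) K)).comap
          (MvPolynomial.pderiv k).toLinearMap := by
      refine Finset.sup_le fun A hA => ?_
      rw [Finset.mem_powerset] at hA
      unfold oh2W
      rw [Submodule.span_le]
      rintro _ ⟨U, ⟨hU1, hU2⟩, rfl⟩
      rw [SetLike.mem_coe, Submodule.mem_comap]
      show MvPolynomial.pderiv k (oh2D a h E U) ∈ (E.powerset.sup (oh2W a h E) : Submodule K (MvPolynomial (Fin n) K))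
      by_cases hk : h k ∈ E \ U.image h
      · rw [oh2D_pderiv a h E U k hk]
        rw [Finset.mem_sdiff] at hk
        refine hmem _ ?_ ?_
        · rw [Finset.coe_insert]
          intro x hx y hy hxy
          rcases hx with rfl | hx <;> rcases hy with rfl | hy
          · rfl
          · exfalso
            apply hk.2
            rw [hxy]
            exact Finset.mem_image_of_mem h hy
          · exfalso
            apply hk.2
            rw [← hxy]
            exact Finset.mem_image_of_mem h hx
          · exact hU1 hx hy hxy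
        · rw [Finset.image_insert]
          intro j hj
          rw [Finset.mem_insert] at hj
          rcases hj with rfl | hj
          · exact hk.1
          · rw [hU2] at hj
            exact hA hj
      · rw [oh2D_pderiv_zero a h E U k hk]
        exact Submodule.zero_mem _
    exact h3 hg

end Pool.Agent.AOI
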