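import Pool.Agent.AOI.Defs

set_option autoImplicit false

namespace Pool.Agent.AOI

open MvPolynomial

private noncomputable def igE {n m : ℕ} (A : Finset (Fin n)) (μ : A → Fin m) : Fin n →₀ ℕ :=
  ∑ i : A, Finsupp.single (i : Fin n) (μ i : ℕ)

private theorem igE_mem {n m : ℕ} (A : Finset (Fin n)) (μ : A → Fin m) (i : A) :
    igE A μ (i : Fin n) = (μ i : ℕ) := by
  classical
  unfold igE
  rw [Finsupp.finsetSum_apply, Finset.sum_eq_single i]
  · rw [Finsupp.single_eq_same]
  · intro j _ hj
    exact Finsupp.single_eq_of_ne' fun h => hj (Subtype.ext h)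
  · intro h
    exact absurd (Finset.mem_univ _) h

private theorem igE_notMem {n m : ℕ} (A : Finset (Fin n)) (μ : A → Fin m) (i : Fin n)
    (hi : i ∉ A) : igE A μ i = 0 := by
  classical
  unfold igE
  rw [Finsupp.finsetSum_apply]
  refine Finset.sum_eq_zero fun j _ => ?_
  exact Finsupp.single_eq_of_ne' fun h => hi (h ▸ j.2)

private theorem igE_inj {n m : ℕ} (A : Finset (Fin n)) {μ ν : A → Fin m}
    (h : igE A μ = igE A ν) : μ = ν := by
  funext i
  have h1 := DFunLike.congr_fun h (i : Fin n)
  rw [igE_mem, igE_mem] at h1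
  exact Fin.ext h1

private theorem ig_prod {K : Type*} [Field K] {n m : ℕ} (A : Finset (Fin n)) (μ : A → Fin m) :
    ∏ i : A, (X (i : Fin n) : MvPolynomial (Fin n) K) ^ (μ i : ℕ) = monomial (igE A μ) 1 := by
  unfold igE
  rw [MvPolynomial.monomial_sum_one]
  refine Finset.prod_congr rfl fun i _ => ?_
  rw [MvPolynomial.X_pow_eq_monomial]

theorem finrank_box {K : Type*} [Field K] {n : ℕ} (m : ℕ) (A : Finset (Fin n))
    (c : (A → Fin m) → K) :
    Module.finrank K (SPD.derivSpace (∑ μ : A → Fin m,
      C (c μ) * ∏ i : A, (X (i : Fin n) : MvPolynomial (Fin n) K) ^ (μ i : ℕ))) ≤ m ^ A.card := by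
  classical
  set V : Submodule K (MvPolynomial (Fin n) K) := Submodule.span K
    (Set.range fun μ : A → Fin m => (monomial (igE A μ) 1 : MvPolynomial (Fin n) K)) with hV
  have hmem : ∀ (μ : A → Fin m) (r : K), (monomial (igE A μ) r : MvPolynomial (Fin n) K) ∈ V := by
    intro μ r
    have h1 : (monomial (igE A μ) r : MvPolynomial (Fin n) K) = r • monomial (igE A μ) 1 := by
      rw [MvPolynomial.smul_monomial, smul_eq_mul, mul_one]
    rw [h1]
    exact V.smul_mem _ (Submodule.subset_span ⟨μ, rfl⟩)
  have hle : SPD.derivSpace (∑ μ : A → Fin m,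
      C (c μ) * ∏ i : A, (X (i : Fin n) : MvPolynomial (Fin n) K) ^ (μ i : ℕ)) ≤ V := by
    refine SPD.derivSpace_le _ V ?_ ?_
    · refine Submodule.sum_mem _ fun μ _ => ?_
      rw [ig_prod, C_mul_monomial, mul_one]
      exact hmem _ _
    · intro g hg k
      refine Submodule.span_induction (p := fun g _ => MvPolynomial.pderiv k g ∈ V) ?_ ?_ ?_ ?_ hg
      · rintro _ ⟨μ, rfl⟩
        simp only
        rw [MvPolynomial.pderiv_monomial]
        by_cases hk : k ∈ A
        · by_cases hz : (μ ⟨k, hk⟩ : ℕ) = 0
          · have h1 : igE A μ k = 0 := by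
              rw [show k = ((⟨k, hk⟩ : A) : Fin n) from rfl, igE_mem, hz]
            rw [h1, Nat.cast_zero, mul_zero, monomial_zero]
            exact V.zero_mem
          · have hlt : (μ ⟨k, hk⟩ : ℕ) - 1 < m := lt_of_le_of_lt (Nat.sub_le _ _) (μ ⟨k, hk⟩).2
            have h2 : igE A μ - Finsupp.single k 1 =
                igE A (Function.update μ ⟨k, hk⟩ ⟨(μ ⟨k, hk⟩ : ℕ) - 1, hlt⟩) := by
              ext j
              rw [Finsupp.tsub_apply]
              by_cases hj : j ∈ A
              · rw [show j = ((⟨j, hj⟩ : A) : Fin n) from rfl, igE_mem, igE_mem]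
                by_cases hjk : j = k
                · subst hjk
                  simp
                · have h3 : (⟨j, hj⟩ : A) ≠ ⟨k, hk⟩ := fun h => hjk (congrArg Subtype.val h)
                  rw [Function.update_of_ne h3, Finsupp.single_eq_of_ne' (Ne.symm hjk)]
                  simp
              · rw [igE_notMem A _ j hj, igE_notMem A _ j hj, Nat.zero_sub]
            rw [h2]
            exact hmem _ _
        · rw [igE_notMem A _ k hk, Nat.cast_zero, mul_zero, monomial_zero]
          exact V.zero_mem
      · rw [map_zero]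
        exact V.zero_mem
      · intro x y _ _ hx hy
        rw [map_add]
        exact V.add_mem hx hy
      · intro r x _ hx
        rw [Derivation.map_smul]
        exact V.smul_mem _ hx
  haveI : FiniteDimensional K V := FiniteDimensional.span_of_finite K (Set.finite_range _)
  refine (Submodule.finrank_mono hle).trans ((finrank_range_le_card _).trans ?_)
  rw [Fintype.card_fun, Fintype.card_fin, Fintype.card_coe]

private theorem ig_fin {K L : Type*} [Field K] [Field L] [Algebra K L] {n : ℕ} (m : ℕ)
    (P : Fin n → L) (A : Finset (Fin n)) :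
    FiniteDimensional K (∏ i ∈ A, Pw K m (P i) : Submodule K L) ∧
      Module.finrank K (∏ i ∈ A, Pw K m (P i) : Submodule K L) ≤ m ^ A.card := by
  classical
  induction A using Finset.induction_on with
  | empty =>
    rw [Finset.prod_empty, Finset.card_empty, pow_zero]
    constructor
    · rw [Submodule.one_eq_span]
      infer_instance
    · rw [Submodule.one_eq_span, finrank_span_singleton one_ne_zero]
  | insert i A hi ih =>
    haveI := ih.1
    rw [Finset.prod_insert hi, Finset.card_insert_of_notMem hi]
    refine ⟨mul_fin _ _, ?_⟩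
    have h1 : Module.finrank K (Pw K m (P i)) ≤ m :=
      (finrank_range_le_card _).trans (by rw [Fintype.card_fin])
    have h2 : Module.finrank K (Pw K m (P i) * ∏ i ∈ A, Pw K m (P i) : Submodule K L) ≤
        Module.finrank K (Pw K m (P i)) *
          Module.finrank K (∏ i ∈ A, Pw K m (P i) : Submodule K L) := by
      rw [← Submodule.mulMap_range, ← Module.finrank_tensorProduct]
      exact LinearMap.finrank_range_le _
    refine h2.trans ((Nat.mul_le_mul h1 ih.2).trans ?_)
    rw [pow_succ, mul_comm]

private theorem ig_mem {K L : Type*} [Field K] [Field L] [Algebra K L] {n : ℕ} (m : ℕ)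
    (P : Fin n → L) (A : Finset (Fin n)) (e : Fin n → ℕ) (he : ∀ i ∈ A, e i < m) :
    ∏ i ∈ A, P i ^ e i ∈ (∏ i ∈ A, Pw K m (P i) : Submodule K L) := by
  classical
  induction A using Finset.induction_on with
  | empty =>
    rw [Finset.prod_empty, Finset.prod_empty]
    exact Submodule.one_le.1 le_rfl
  | insert i A hi ih =>
    rw [Finset.prod_insert hi, Finset.prod_insert hi]
    exact Submodule.mul_mem_mul (pow_mem_Pw _ (he i (Finset.mem_insert_self _ _)))
      (ih fun j hj => he j (Finset.mem_insert_of_mem hj))

theorem indP_gL {K : Type*} [Field K] [CharZero K] (n : ℕ) {m k s : ℕ} (hm : 1 ≤ m)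
    (hs : m ^ k ≤ s) : IndP K m k (gL K n s) := by
  classical
  intro A hA
  obtain ⟨hfin, hle⟩ := ig_fin (K := K) m (gL K n s) A
  refine le_antisymm hle ?_
  have hli : LinearIndependent K (fun μ : A → Fin m =>
      ∏ i : A, (gL K n s (i : Fin n)) ^ (μ i : ℕ)) := by
    rw [Fintype.linearIndependent_iff]
    intro c hc
    set g : MvPolynomial (Fin n) K := ∑ μ : A → Fin m,
      C (c μ) * ∏ i : A, (X (i : Fin n) : MvPolynomial (Fin n) K) ^ (μ i : ℕ) with hg
    have hg0 : g = 0 := by
      by_contra hne
      have h1 := SPD.curve_ne_zero n s g hne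
        ((finrank_box m A c).trans ((Nat.pow_le_pow_right hm hA).trans hs))
      apply h1
      have h2 : algebraMap (Polynomial K) (FractionRing (Polynomial K))
          (aeval (fun i : Fin n => AOR.gm (K := K) n s i) g) = 0 := by
        rw [← hc, hg, map_sum, map_sum]
        refine Finset.sum_congr rfl fun μ _ => ?_
        rw [map_mul, map_mul, map_prod, map_prod, aeval_C, Algebra.smul_def,
          ← IsScalarTower.algebraMap_apply K (Polynomial K) (FractionRing (Polynomial K))]
        congr 1
        refine Finset.prod_congr rfl fun i _ => ?_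
        rw [map_pow, aeval_X, map_pow]
        rfl
      exact (IsFractionRing.injective (Polynomial K) (FractionRing (Polynomial K)))
        (h2.trans (map_zero _).symm)
    intro μ
    have h1 := congrArg (coeff (igE A μ)) hg0
    rw [hg, coeff_sum, coeff_zero, Finset.sum_eq_single μ] at h1
    · rw [ig_prod, C_mul_monomial, mul_one, coeff_monomial, if_pos rfl] at h1
      exact h1
    · intro ν _ hν
      rw [ig_prod, C_mul_monomial, mul_one, coeff_monomial, if_neg]
      exact fun h => hν (igE_inj A h)
    · intro h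
      exact absurd (Finset.mem_univ _) h
  have hmem : ∀ μ : A → Fin m, ∏ i : A, (gL K n s (i : Fin n)) ^ (μ i : ℕ) ∈
      (∏ i ∈ A, Pw K m (gL K n s i) : Submodule K (FractionRing (Polynomial K))) := by
    intro μ
    have h1 : ∏ i : A, (gL K n s (i : Fin n)) ^ (μ i : ℕ) =
        ∏ i ∈ A, (gL K n s i) ^ (if h : i ∈ A then (μ ⟨i, h⟩ : ℕ) else 0) := by
      rw [← Finset.prod_coe_sort A]
      refine Finset.prod_congr rfl fun i _ => ?_
      rw [dif_pos i.2]
    rw [h1]
    refine ig_mem m _ A _ fun i hi => ?_
    rw [dif_pos hi]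
    exact (μ ⟨i, hi⟩).2
  have hli' : LinearIndependent K (fun μ : A → Fin m =>
      (⟨_, hmem μ⟩ : (∏ i ∈ A, Pw K m (gL K n s i) :
        Submodule K (FractionRing (Polynomial K))))) := by
    refine LinearIndependent.of_comp (Submodule.subtype _) ?_
    exact hli
  have hcard := hli'.fintype_card_le_finrank
  rw [Fintype.card_fun, Fintype.card_fin, Fintype.card_coe] at hcard
  exact hcard

end Pool.Agent.AOI
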