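import Pool.Agent.AOI.Defs

set_option autoImplicit false

namespace Pool.Agent.AOI

/-- Independence in the recursive form. -/
theorem ind_of {K L : Type*} [Field K] [Field L] [Algebra K L] {m k n : ℕ} (P : Fin n → L)
    (hP : IndP K m k P) : ∀ (N k' : ℕ) (ι : Fin N → Fin n), Function.Injective ι →
    ∀ A : Finset (Fin n), (∀ j, ι j ∉ A) → A.card + k' ≤ k →
    Ind m N k' (P ∘ ι) (∏ i ∈ A, Pw K m (P i)) := by
  intro N
  induction N with
  | zero => exact fun _ _ _ _ _ _ => trivial
  | succ N ih =>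
    intro k' ι hι A hA hk
    have hs : Function.Injective (ι ∘ Fin.succ) := hι.comp (Fin.succ_injective N)
    refine ⟨ih k' (ι ∘ Fin.succ) hs A (fun j => hA j.succ) hk, ?_⟩
    rintro k'' rfl
    have h0 : ι 0 ∉ A := hA 0
    have e : (∏ i ∈ A, Pw K m (P i)) * Pw K m ((P ∘ ι) 0) =
        ∏ i ∈ insert (ι 0) A, Pw K m (P i) := by
      rw [Finset.prod_insert h0, mul_comm]
      rfl
    have hc : (insert (ι 0) A).card = A.card + 1 := Finset.card_insert_of_notMem h0
    rw [e]
    refine ⟨?_, ih k'' (ι ∘ Fin.succ) hs (insert (ι 0) A) ?_ ?_⟩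
    · rw [hP _ (by omega), hP _ (by omega), hc, pow_succ']
    · intro j hj
      rcases Finset.mem_insert.1 hj with h | h
      · exact Fin.succ_ne_zero j (hι h)
      · exact hA j.succ h
    · omega

end Pool.Agent.AOI
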