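import Pool.Agent.AOI.Defs

set_option autoImplicit false

namespace Pool.Agent.AOI

open MvPolynomial

variable {K : Type*} [Field K] {n c : ℕ}

theorem SU_ne_zero (a : Finset (Fin n) → K) (h : Fin n → Fin c) (E : Finset (Fin c))
    (U : Finset (Fin n)) (hU : SU a h E U ≠ 0) :
    Set.InjOn h (U : Set (Fin n)) ∧ U.image h ⊆ E := by
  classical
  unfold SU at hU
  obtain ⟨V, hV, -⟩ := Finset.exists_ne_zero_of_sum_ne_zero hU
  obtain ⟨-, ⟨hi, hE⟩, hUV⟩ := Finset.mem_filter.1 hV
  refine ⟨hi.mono (Finset.coe_subset.2 hUV), ?_⟩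
  rw [← hE]
  exact Finset.image_subset_image hUV

/- The only `V ⊇ T` with exactly one element in every colour of `T.image h` is `T`. -/
theorem SU_self (a : Finset (Fin n) → K) (h : Fin n → Fin c) (T : Finset (Fin n))
    (hT : Set.InjOn h (T : Set (Fin n))) : SU a h (T.image h) T = a T := by
  classical
  unfold SU
  have hs : (Finset.univ.filter (fun V : Finset (Fin n) =>
      (Set.InjOn h (V : Set (Fin n)) ∧ V.image h = T.image h) ∧ T ⊆ V)) = {T} := by
    ext V
    rw [Finset.mem_filter, Finset.mem_singleton]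
    constructor
    · rintro ⟨-, ⟨hi, hE⟩, hTV⟩
      refine Finset.Subset.antisymm (fun v hv => ?_) hTV
      have h1 : h v ∈ T.image h := by rw [← hE]; exact Finset.mem_image_of_mem h hv
      obtain ⟨t, ht, htv⟩ := Finset.mem_image.1 h1
      have h2 : t = v := hi (hTV ht) hv htv
      rwa [← h2]
    · rintro rfl
      exact ⟨Finset.mem_univ _, ⟨hT, rfl⟩, Finset.Subset.refl _⟩
  have hc : (∑ V ∈ Finset.univ.filter (fun V : Finset (Fin n) =>
      (Set.InjOn h (V : Set (Fin n)) ∧ V.image h = T.image h) ∧ T ⊆ V), a V) = a T := by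
    rw [hs, Finset.sum_singleton]
  convert hc

/- PLAN.  `V ↦ V \ U` (inverse `V' ↦ U ∪ V'`) is a bijection between the `V ⊇ U` with exactly one
element in every colour of `E` and the `V'` with exactly one element in every colour of
`E \ U.image h`. -/
theorem SU_eq (a : Finset (Fin n) → K) (h : Fin n → Fin c) (E : Finset (Fin c)) (χ : Fin n → K)
    (U : Finset (Fin n)) (hU : Set.InjOn h (U : Set (Fin n))) (hUE : U.image h ⊆ E) :
    SU a h E U * ∏ i ∈ U, χ i = acc a h χ (E \ U.image h) U := by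
  classical
  unfold SU acc
  rw [mul_comm]
  congr 1
  refine Finset.sum_bij' (fun V _ => V \ U) (fun V' _ => U ∪ V') ?_ ?_ ?_ ?_ ?_
  · intro V hV
    obtain ⟨-, ⟨hi, hE⟩, hUV⟩ := Finset.mem_filter.1 hV
    refine Finset.mem_filter.2 ⟨Finset.mem_univ _, ?_, ?_⟩
    · exact hi.mono (Finset.coe_subset.2 Finset.sdiff_subset)
    · ext y
      simp only [Finset.mem_image, Finset.mem_sdiff]
      constructor
      · rintro ⟨v, ⟨hv, hvU⟩, rfl⟩
        refine ⟨?_, ?_⟩
        · rw [← hE]; exact Finset.mem_image_of_mem h hv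
        · rintro ⟨u, hu, huv⟩
          have h2 : u = v := hi (hUV hu) hv huv
          exact hvU (h2 ▸ hu)
      · rintro ⟨hy, hyU⟩
        rw [← hE] at hy
        obtain ⟨v, hv, rfl⟩ := Finset.mem_image.1 hy
        exact ⟨v, ⟨hv, fun hvU => hyU ⟨v, hvU, rfl⟩⟩, rfl⟩
  · intro V' hV'
    obtain ⟨-, hi, hE⟩ := Finset.mem_filter.1 hV'
    have hne : ∀ u ∈ U, ∀ v ∈ V', h u ≠ h v := by
      intro u hu v hv huv
      have h1 : h v ∈ E \ U.image h := by rw [← hE]; exact Finset.mem_image_of_mem h hv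
      rw [← huv] at h1
      exact (Finset.mem_sdiff.1 h1).2 (Finset.mem_image_of_mem h hu)
    refine Finset.mem_filter.2 ⟨Finset.mem_univ _, ⟨?_, ?_⟩, Finset.subset_union_left⟩
    · intro x hx y hy hxy
      rw [Finset.mem_coe, Finset.mem_union] at hx hy
      rcases hx with hx | hx <;> rcases hy with hy | hy
      · exact hU hx hy hxy
      · exact absurd hxy (hne x hx y hy)
      · exact absurd hxy.symm (hne y hy x hx)
      · exact hi hx hy hxy
    · rw [Finset.image_union, hE]
      exact Finset.union_sdiff_of_subset hUE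
  · intro V hV
    obtain ⟨-, -, hUV⟩ := Finset.mem_filter.1 hV
    exact Finset.union_sdiff_of_subset hUV
  · intro V' hV'
    obtain ⟨-, hi, hE⟩ := Finset.mem_filter.1 hV'
    ext v
    simp only [Finset.mem_sdiff, Finset.mem_union]
    constructor
    · rintro ⟨h1 | h1, h2⟩
      · exact absurd h1 h2
      · exact h1
    · intro hv
      refine ⟨Or.inr hv, fun hvU => ?_⟩
      have h1 : h v ∈ E \ U.image h := by rw [← hE]; exact Finset.mem_image_of_mem h hv
      exact (Finset.mem_sdiff.1 h1).2 (Finset.mem_image_of_mem h hvU)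
  · intro V hV
    obtain ⟨-, -, hUV⟩ := Finset.mem_filter.1 hV
    rw [Finset.union_sdiff_of_subset hUV]

/- PLAN.  Split the sum over `U` according to `A = U.image h`; only `U` with `h` injective on `U` and
`A ⊆ E` contribute (`SU_ne_zero`), then `A.card = l`, and `SU_eq`. -/
theorem Lam_eq (a : Finset (Fin n) → K) (h : Fin n → Fin c) (E : Finset (Fin c)) (χ : Fin n → K)
    (l : ℕ) :
    Lam a h E χ l = ∑ A ∈ E.powersetCard l, AOR.Hpoly (acc a h χ (E \ A)) h A := by
  classical
  have h1 : Lam a h E χ l = ∑ U ∈ Finset.univ.filter (fun U : Finset (Fin n) =>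
      Set.InjOn h (U : Set (Fin n)) ∧ U.image h ∈ E.powersetCard l),
      C (SU a h E U * ∏ i ∈ U, χ i) * ∏ i ∈ U, X i := by
    unfold Lam
    symm
    apply Finset.sum_subset
    · intro U hU
      obtain ⟨-, hi, hE⟩ := Finset.mem_filter.1 hU
      obtain ⟨-, hc⟩ := Finset.mem_powersetCard.1 hE
      rw [Finset.card_image_of_injOn hi] at hc
      exact Finset.mem_filter.2 ⟨Finset.mem_univ _, hc⟩
    · intro U hU hU'
      by_cases h0 : SU a h E U = 0
      · rw [h0, zero_mul, C_0, zero_mul]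
      · exfalso
        obtain ⟨hi, hE⟩ := SU_ne_zero a h E U h0
        apply hU'
        refine Finset.mem_filter.2 ⟨Finset.mem_univ _, hi, Finset.mem_powersetCard.2 ⟨hE, ?_⟩⟩
        rw [Finset.card_image_of_injOn hi]
        exact (Finset.mem_filter.1 hU).2
  rw [h1, ← Finset.sum_fiberwise_of_maps_to (s := Finset.univ.filter (fun U : Finset (Fin n) =>
      Set.InjOn h (U : Set (Fin n)) ∧ U.image h ∈ E.powersetCard l)) (t := E.powersetCard l)
      (g := fun U : Finset (Fin n) => U.image h) (fun U hU => (Finset.mem_filter.1 hU).2.2)]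
  refine Finset.sum_congr rfl fun A hA => ?_
  unfold AOR.Hpoly
  refine Finset.sum_congr ?_ ?_
  · ext U
    simp only [Finset.mem_filter, Finset.mem_univ, true_and]
    constructor
    · rintro ⟨⟨hi, -⟩, hE⟩
      exact ⟨hi, hE⟩
    · rintro ⟨hi, hE⟩
      exact ⟨⟨hi, hE ▸ hA⟩, hE⟩
  · intro U hU
    obtain ⟨-, hi, hE⟩ := Finset.mem_filter.1 hU
    have hUE : U.image h ⊆ E := by rw [hE]; exact (Finset.mem_powersetCard.1 hA).1
    rw [SU_eq a h E χ U hi hUE, hE]

end Pool.Agent.AOI
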