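import Pool.Agent.AOI.LamA
import Pool.Agent.AOI.Acc
import Pool.Agent.AOI.Hd2

set_option autoImplicit false

/-! AOD-LamB: the space of derivatives of `Lam`. -/

namespace Pool.Agent.AOI

open MvPolynomial

variable {K : Type*} [Field K] {n c : ℕ}

private theorem lb_zero : SPD.derivSpace (0 : MvPolynomial (Fin n) K) = ⊥ := by
  refine le_bot_iff.1 (SPD.derivSpace_le 0 ⊥ (Submodule.zero_mem _) ?_)
  intro g hg i
  rw [Submodule.mem_bot] at hg ⊢
  rw [hg, map_zero]

private theorem lb_add (f g : MvPolynomial (Fin n) K) :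
    SPD.derivSpace (f + g) ≤ SPD.derivSpace f ⊔ SPD.derivSpace g := by
  refine SPD.derivSpace_le _ _ ?_ ?_
  · exact Submodule.add_mem_sup (SPD.mem_derivSpace f) (SPD.mem_derivSpace g)
  · intro h hh i
    obtain ⟨a, ha, b, hb, rfl⟩ := Submodule.mem_sup.1 hh
    rw [map_add]
    exact Submodule.add_mem_sup (SPD.pderiv_mem_derivSpace f a ha i)
      (SPD.pderiv_mem_derivSpace g b hb i)

theorem finrank_sum {ι : Type*} (s : Finset ι) (g : ι → MvPolynomial (Fin n) K) :
    Module.finrank K (SPD.derivSpace (∑ A ∈ s, g A)) ≤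
      ∑ A ∈ s, Module.finrank K (SPD.derivSpace (g A)) := by
  classical
  induction s using Finset.induction_on with
  | empty =>
    rw [Finset.sum_empty, Finset.sum_empty, lb_zero, finrank_bot]
  | insert A s hA ih =>
    rw [Finset.sum_insert hA, Finset.sum_insert hA]
    have i1 : FiniteDimensional K (SPD.derivSpace (g A) ⊔ SPD.derivSpace (∑ A ∈ s, g A) :
        Submodule K (MvPolynomial (Fin n) K)) := Submodule.finite_sup _ _
    refine (Submodule.finrank_mono (lb_add _ _)).trans ?_
    exact (Submodule.finrank_add_le_finrank_add_finrank _ _).trans (Nat.add_le_add_left ih _)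

theorem finrank_Lam {w : ℕ} (a : Finset (Fin n) → K) (hw : AOR.Flat w a) (h : Fin n → Fin c)
    (E : Finset (Fin c)) (χ : Fin n → K) (l : ℕ) :
    Module.finrank K (SPD.derivSpace (Lam a h E χ l)) ≤ w * 4 ^ E.card := by
  classical
  rw [Lam_eq]
  refine (finrank_sum _ _).trans ?_
  have h1 : ∀ A ∈ E.powersetCard l,
      Module.finrank K (SPD.derivSpace (AOR.Hpoly (acc a h χ (E \ A)) h A)) ≤ w * 2 ^ E.card := by
    intro A hA
    refine (finrank_H' (acc a h χ (E \ A)) h (fun B => finrank_acc a hw h χ (E \ A) B) A).trans ?_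
    exact Nat.mul_le_mul_left _ (Nat.pow_le_pow_right (by norm_num)
      (Finset.card_le_card (Finset.mem_powersetCard.1 hA).1))
  refine (Finset.sum_le_sum h1).trans ?_
  rw [Finset.sum_const, smul_eq_mul, Finset.card_powersetCard]
  have h2 : (E.card).choose l ≤ 2 ^ E.card := Nat.choose_le_two_pow _ _
  calc (E.card).choose l * (w * 2 ^ E.card) ≤ 2 ^ E.card * (w * 2 ^ E.card) :=
        Nat.mul_le_mul_right _ h2
    _ = w * 4 ^ E.card := by
        rw [show (4 : ℕ) = 2 * 2 from rfl, mul_pow]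
        ring

private theorem lb_prod (A : Finset (Fin n)) :
    (∏ i ∈ A, X i : MvPolynomial (Fin n) K) = monomial (∑ i ∈ A, Finsupp.single i 1) 1 := by
  rw [MvPolynomial.monomial_sum_one]
  rfl

private theorem lb_inj (A B : Finset (Fin n))
    (h : (∑ i ∈ A, Finsupp.single i 1 : Fin n →₀ ℕ) = ∑ i ∈ B, Finsupp.single i 1) : A = B := by
  ext j
  have h1 := DFunLike.congr_fun h j
  rw [Finsupp.finsetSum_apply, Finsupp.finsetSum_apply] at h1
  simp only [Finsupp.single_apply] at h1
  rw [Finset.sum_ite_eq', Finset.sum_ite_eq'] at h1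
  by_cases hA : j ∈ A <;> by_cases hB : j ∈ B <;> simp_all

theorem Lam_ne_zero (a : Finset (Fin n) → K) (h : Fin n → Fin c) (E : Finset (Fin c))
    (χ : Fin n → K) (hχ : ∀ i, h i ∈ E → χ i ≠ 0) (U : Finset (Fin n))
    (hU : SU a h E U ≠ 0) : Lam a h E χ U.card ≠ 0 := by
  classical
  intro h0
  have h1 : coeff (∑ i ∈ U, Finsupp.single i 1) (Lam a h E χ U.card) =
      SU a h E U * ∏ i ∈ U, χ i := by
    unfold Lam
    rw [coeff_sum, Finset.sum_eq_single U]
    · rw [coeff_C_mul, lb_prod, coeff_monomial, if_pos rfl, mul_one]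
    · intro V _ hne
      rw [coeff_C_mul, lb_prod, coeff_monomial, if_neg (fun he => hne (lb_inj _ _ he)), mul_zero]
    · intro h2
      exact (h2 (Finset.mem_filter.2 ⟨Finset.mem_univ _, rfl⟩)).elim
  rw [h0, coeff_zero] at h1
  obtain ⟨-, hE⟩ := SU_ne_zero a h E U hU
  exact mul_ne_zero hU (Finset.prod_ne_zero_iff.2 fun i hi =>
    hχ i (hE (Finset.mem_image_of_mem h hi))) h1.symm

theorem Lam_totalDegree (a : Finset (Fin n) → K) (h : Fin n → Fin c) (E : Finset (Fin c))
    (χ : Fin n → K) (l : ℕ) : (Lam a h E χ l).totalDegree ≤ l := by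
  classical
  unfold Lam
  refine totalDegree_finsetSum_le fun T hT => ?_
  rw [Finset.mem_filter] at hT
  refine le_trans (totalDegree_mul _ _) ?_
  rw [totalDegree_C, zero_add, ← hT.2]
  refine le_trans (totalDegree_finsetProd _ _) ?_
  refine le_trans (Finset.sum_le_card_nsmul _ _ 1 fun i _ => ?_) (by simp)
  exact le_of_eq (totalDegree_X i)

end Pool.Agent.AOI
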