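import Pool.Agent.AOI.Defs

set_option autoImplicit false

namespace Pool.Agent.AOI

open MvPolynomial

private lemma ps_of_vars_mem {K L : Type*} [Field K] [Field L] [Algebra K L] {n : ℕ}
    (g : MvPolynomial (Fin n) K) (P : Fin n → L) (T : Finset (Fin n)) (hg : g.vars ⊆ T) :
    ps g P T = map (algebraMap K L) g := by
  have h := hom_congr_vars (p₁ := g) (p₂ := g)
    (f₁ := ((aeval (fun i => if i ∈ T then X i else C (P i)) :
      MvPolynomial (Fin n) K →ₐ[K] MvPolynomial (Fin n) L) : MvPolynomial (Fin n) K →+* _))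
    (f₂ := map (algebraMap K L)) ?_ ?_ rfl
  · exact h
  · ext1 c
    simp only [RingHom.comp_apply, RingHom.coe_coe, map_C]
    exact AlgHom.commutes _ c
  · intro i hi _
    simp only [RingHom.coe_coe, aeval_X, map_X, if_pos (hg hi)]

private lemma ps_of_vars_compl {K L : Type*} [Field K] [Field L] [Algebra K L] {n : ℕ}
    (g : MvPolynomial (Fin n) K) (P : Fin n → L) (T : Finset (Fin n)) (hg : g.vars ⊆ Tᶜ) :
    ps g P T = C (aeval P g) := by
  have h := hom_congr_vars (p₁ := g) (p₂ := g)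
    (f₁ := ((aeval (fun i => if i ∈ T then X i else C (P i)) :
      MvPolynomial (Fin n) K →ₐ[K] MvPolynomial (Fin n) L) : MvPolynomial (Fin n) K →+* _))
    (f₂ := (C : L →+* MvPolynomial (Fin n) L).comp
      ((aeval P : MvPolynomial (Fin n) K →ₐ[K] L) : MvPolynomial (Fin n) K →+* L)) ?_ ?_ rfl
  · exact h
  · ext1 c
    simp only [RingHom.comp_apply, RingHom.coe_coe]
    have h1 : aeval (R := K) P (C c) = algebraMap K L c := AlgHom.commutes _ c
    rw [h1]
    exact AlgHom.commutes _ c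
  · intro i hi _
    have h1 : i ∉ T := Finset.mem_compl.1 (hg hi)
    simp only [RingHom.comp_apply, RingHom.coe_coe, aeval_X, if_neg h1]

theorem coeff_ps_mem {K L : Type*} [Field K] [Field L] [Algebra K L] {n w : ℕ}
    (f : MvPolynomial (Fin n) K) (P : Fin n → L) (T : Finset (Fin n)) (hf : Cut w T f) :
    ∃ η : Fin w → L, ∀ μ, coeff μ (ps f P T) ∈ Submodule.span K (Set.range η) := by
  obtain ⟨g, h, hg, hh, rfl⟩ := hf
  refine ⟨fun k => aeval P (h k), fun μ => ?_⟩
  have h1 : ps (∑ k, g k * h k) P T = ∑ k, map (algebraMap K L) (g k) * C (aeval P (h k)) := by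
    rw [ps, map_sum]
    refine Finset.sum_congr rfl fun k _ => ?_
    rw [map_mul]
    exact congrArg₂ (· * ·) (ps_of_vars_mem (g k) P T (hg k)) (ps_of_vars_compl (h k) P T (hh k))
  rw [h1, coeff_sum]
  refine Submodule.sum_mem _ fun k _ => ?_
  rw [mul_comm, coeff_C_mul, coeff_map, mul_comm, ← Algebra.smul_def]
  exact Submodule.smul_mem _ _ (Submodule.subset_span ⟨k, rfl⟩)

end Pool.Agent.AOI
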