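import Pool.Agent.AOI.PsB
import Pool.Agent.AOI.PsC
import Pool.Agent.AOI.IndOf

set_option autoImplicit false

namespace Pool.Agent.AOI

open MvPolynomial

private theorem lt_arith {N k w : ℕ} (h : 4 ^ N ≤ 3 ^ N * w) (hw : w < 2 ^ k) : N ≤ 3 * k := by
  by_contra hcon
  obtain ⟨r, rfl⟩ : ∃ r, N = 3 * k + r := ⟨N - 3 * k, by omega⟩
  have h1 : 3 ^ (3 * k + r) * w < 3 ^ (3 * k + r) * 2 ^ k :=
    Nat.mul_lt_mul_of_pos_left hw (by positivity)
  have h2 : 3 ^ (3 * k + r) * 2 ^ k = 54 ^ k * 3 ^ r := by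
    rw [pow_add, pow_mul, mul_right_comm, ← mul_pow]
    norm_num
  have h3 : 4 ^ (3 * k + r) = 64 ^ k * 4 ^ r := by
    rw [pow_add, pow_mul]
    norm_num
  have h4 : 54 ^ k * 3 ^ r ≤ 64 ^ k * 4 ^ r :=
    Nat.mul_le_mul (Nat.pow_le_pow_left (by norm_num) _) (Nat.pow_le_pow_left (by norm_num) _)
  omega

/-- The bound for the number of variables of a minimal nonzero partial substitution. -/
theorem card_le {K L : Type*} [Field K] [Infinite K] [Field L] [Algebra K L] {n w d : ℕ}
    (hd1 : 1 ≤ d) (f : MvPolynomial (Fin n) K) (hd : ∀ i, f.degreeOf i ≤ d) (P : Fin n → L)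
    (hP : IndP K (4 * d) (k0 w) P) (T : Finset (Fin n)) (hT : ps f P T ≠ 0)
    (hmin : ∀ i ∈ T, ps f P (T.erase i) = 0) (hcut : Cut w T f) : T.card ≤ 3 * k0 w := by
  classical
  obtain ⟨N, hN⟩ : ∃ N, N = T.card := ⟨_, rfl⟩
  obtain ⟨ι, hιinj, hιT, hιs⟩ : ∃ ι : Fin N → Fin n, Function.Injective ι ∧ (∀ j, ι j ∈ T) ∧
      ∀ i ∈ T, ∃ j, ι j = i := by
    refine ⟨fun j => T.orderEmbOfFin hN.symm j, (T.orderEmbOfFin hN.symm).injective,
      fun j => Finset.orderEmbOfFin_mem T hN.symm j, fun i hi => ?_⟩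
    have h1 := Finset.range_orderEmbOfFin T hN.symm
    have h2 : i ∈ Set.range (T.orderEmbOfFin hN.symm) := by
      rw [h1]
      exact hi
    exact h2
  set e : (Fin N → Fin (d + 1)) → (Fin n →₀ ℕ) := fun α => ∑ j, Finsupp.single (ι j) (α j : ℕ)
    with he
  have he1 : ∀ α j, e α (ι j) = (α j : ℕ) := by
    intro α j
    rw [he]
    simp only [Finsupp.finsetSum_apply]
    rw [Finset.sum_eq_single j]
    · rw [Finsupp.single_eq_same]
    · intro j' _ hj'
      exact Finsupp.single_eq_of_ne' fun h => hj' (hιinj h)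
    · intro h
      exact absurd (Finset.mem_univ _) h
  have he2 : ∀ α i, i ∉ T → e α i = 0 := by
    intro α i hi
    rw [he]
    simp only [Finsupp.finsetSum_apply]
    refine Finset.sum_eq_zero fun j _ => ?_
    exact Finsupp.single_eq_of_ne' fun h => hi (h ▸ hιT j)
  have hdq : ∀ i, (ps f P T).degreeOf i ≤ d := fun i => (ps_degreeOf f P T i).trans (hd i)
  set c : (Fin N → Fin (d + 1)) → L := fun α => coeff (e α) (ps f P T) with hc
  have hcne : c ≠ 0 := by
    obtain ⟨μ, hμ⟩ := MvPolynomial.ne_zero_iff.1 hT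
    have hs : μ.support ⊆ T := ps_support f P T μ hμ
    have hb : ∀ i, μ i ≤ d := fun i =>
      (monomial_le_degreeOf i (mem_support_iff.2 hμ)).trans (hdq i)
    intro h0
    apply hμ
    have h1 := congrFun h0 (fun j => ⟨μ (ι j), Nat.lt_succ_of_le (hb _)⟩)
    rw [hc] at h1
    simp only [Pi.zero_apply] at h1
    rw [← h1]
    congr 1
    ext i
    by_cases hi : i ∈ T
    · obtain ⟨j, rfl⟩ := hιs i hi
      rw [he1]
    · rw [he2 _ _ hi]
      exact Finsupp.notMem_support_iff.1 fun h => hi (hs h)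
  have hv : Vans c (P ∘ ι) := by
    intro i α
    have h1 := hmin _ (hιT i)
    rw [ps_erase f P T (ι i) (hιT i)] at h1
    have hμ0 : (∑ j ∈ Finset.univ.erase i, Finsupp.single (ι j) (α j : ℕ)) (ι i) = 0 := by
      rw [Finsupp.finsetSum_apply]
      refine Finset.sum_eq_zero fun j hj => ?_
      exact Finsupp.single_eq_of_ne' fun h => (Finset.mem_erase.1 hj).1 (hιinj h)
    have h2 := sum_coeff (ps f P T) (ι i) (P (ι i)) d (hdq _) h1 _ hμ0
    rw [← h2]
    refine Finset.sum_congr rfl fun l _ => ?_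
    have h3 : e (Function.update α i l) =
        (∑ j ∈ Finset.univ.erase i, Finsupp.single (ι j) (α j : ℕ)) +
          Finsupp.single (ι i) (l : ℕ) := by
      rw [he]
      simp only
      rw [← Finset.sum_erase_add _ _ (Finset.mem_univ i), Function.update_self]
      congr 1
      refine Finset.sum_congr rfl fun j hj => ?_
      rw [Function.update_of_ne (Finset.mem_erase.1 hj).1]
    rw [hc]
    simp only [Function.comp_apply]
    rw [h3]
  obtain ⟨η, hη⟩ := coeff_ps_mem f P T hcut
  have hE : Module.finrank K (Es K c) ≤ w := by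
    have h1 : Es K c ≤ Submodule.span K (Set.range η) := by
      refine Submodule.span_le.2 ?_
      rintro _ ⟨α, rfl⟩
      exact hη _
    haveI : FiniteDimensional K (Submodule.span K (Set.range η)) :=
      FiniteDimensional.span_of_finite K (Set.finite_range _)
    refine (Submodule.finrank_mono h1).trans ((finrank_range_le_card η).trans ?_)
    rw [Fintype.card_fin]
  have hone : Module.finrank K (1 : Submodule K L) = 1 := by
    rw [Submodule.one_eq_span]
    exact finrank_span_singleton one_ne_zero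
  haveI : FiniteDimensional K (1 : Submodule K L) := by
    rw [Submodule.one_eq_span]
    infer_instance
  have hInd : Ind (4 * d) N (k0 w) (P ∘ ι) (1 : Submodule K L) := by
    have h1 := ind_of P hP N (k0 w) ι hιinj ∅ (by simp) (by simp)
    rwa [Finset.prod_empty] at h1
  have hwk : w < 2 ^ k0 w := Nat.lt_pow_succ_log_self (by norm_num) w
  have h1 := low hd1 N (k0 w) (P ∘ ι) c 1 (by rw [hone]) hInd hcne hv
    (by rw [one_mul, hone, mul_one]; exact hE.trans_lt hwk)
  rw [one_mul, hone, mul_one] at h1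
  rw [← hN]
  exact lt_arith (h1.trans (Nat.mul_le_mul_left _ hE)) hwk

end Pool.Agent.AOI
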