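import Pool.Agent.AOI.Defs

set_option autoImplicit false

namespace Pool.Agent.AOI

open MvPolynomial

variable {K : Type*} [Field K] {n c : ℕ}

/- PLAN.  Finitely many exponents (`F.support.filter (degree = a0.degree)`), take one with maximal
`support.card` (`Finset.exists_max_image`). -/
theorem exists_max (F : MvPolynomial (Fin n) K) (a0 : Fin n →₀ ℕ) (h0 : coeff a0 F ≠ 0) :
    ∃ a : Fin n →₀ ℕ, a.degree = a0.degree ∧ coeff a F ≠ 0 ∧
      ∀ a' : Fin n →₀ ℕ, a'.degree = a.degree → coeff a' F ≠ 0 →
        a'.support.card ≤ a.support.card := by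
  obtain ⟨a, ha, hmax⟩ := Finset.exists_max_image
    (F.support.filter fun a => a.degree = a0.degree) (fun a => a.support.card)
    ⟨a0, by rw [Finset.mem_filter, mem_support_iff]; exact ⟨h0, rfl⟩⟩
  rw [Finset.mem_filter, mem_support_iff] at ha
  refine ⟨a, ha.2, ha.1, fun a' h1 h2 => hmax a' ?_⟩
  rw [Finset.mem_filter, mem_support_iff]
  exact ⟨h2, h1.trans ha.2⟩

private theorem ex_apply (β : Fin c → ℕ) (h : Fin n → Fin c) (V : Finset (Fin n)) (i : Fin n) :
    ex β h V i = if i ∈ V then β (h i) else 0 := by
  classical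
  unfold ex
  rw [Finsupp.finsetSum_apply]
  simp only [Finsupp.single_apply]
  rw [Finset.sum_ite_eq']

private theorem ex_self (a : Fin n →₀ ℕ) (h : Fin n → Fin c)
    (hinj : Set.InjOn h (a.support : Set (Fin n))) :
    ex (⇑(a.mapDomain h)) h a.support = a := by
  classical
  ext i
  rw [ex_apply]
  by_cases hi : i ∈ a.support
  · rw [if_pos hi]
    exact Finsupp.mapDomain_apply' (a.support : Set (Fin n)) a subset_rfl hinj hi
  · rw [if_neg hi]
    exact (Finsupp.notMem_support_iff.1 hi).symm

/- `ex (mapDomain h a) h a.support = a` because `(mapDomain h a) (h i) = a i` for `i ∈ a.support`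
(`h` is injective there). -/
theorem arr_self (F : MvPolynomial (Fin n) K) (a : Fin n →₀ ℕ) (h : Fin n → Fin c)
    (hinj : Set.InjOn h (a.support : Set (Fin n))) :
    arr F (⇑(a.mapDomain h)) h a.support = coeff a F := by
  unfold arr
  rw [ex_self a h hinj]

private theorem prod_X_h (h : Fin n → Fin c) (b : Fin n →₀ ℕ) :
    (∏ i, (X (h i) : MvPolynomial (Fin c) K) ^ b i) = monomial (b.mapDomain h) 1 := by
  rw [← rename_monomial, ← prod_X_pow_eq_monomial, map_prod]
  simp only [map_pow, rename_X]
  symm
  refine Finset.prod_subset (Finset.subset_univ _) fun i _ hi => ?_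
  rw [Finsupp.notMem_support_iff.1 hi, pow_zero]

private theorem R_eq (F : MvPolynomial (Fin n) K) (h : Fin n → Fin c) (z : Fin n → K) :
    R F h z = ∑ b ∈ F.support, monomial (b.mapDomain h) (coeff b F * ∏ i, z i ^ b i) := by
  unfold R
  rw [aeval_def, eval₂_eq']
  refine Finset.sum_congr rfl fun b _ => ?_
  simp only [mul_pow]
  rw [Finset.prod_mul_distrib, prod_X_h, algebraMap_eq]
  simp only [← map_pow]
  rw [← map_prod, ← mul_assoc, ← map_mul, C_mul_monomial, mul_one]

private theorem exists_b {a b : Fin n →₀ ℕ} {h : Fin n → Fin c}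
    (hinj : Set.InjOn h (a.support : Set (Fin n)))
    (hb : b.mapDomain h = a.mapDomain h)
    (hcard : b.degree = a.degree → b.support.card ≤ a.support.card) :
    Set.InjOn h (b.support : Set (Fin n)) ∧ b.support.image h = a.support.image h := by
  classical
  have hs : b.support.image h = a.support.image h := by
    rw [← Finsupp.mapDomain_support_of_subsingletonAddUnits,
      ← Finsupp.mapDomain_support_of_subsingletonAddUnits, hb]
  have hdeg : b.degree = a.degree := by
    rw [← Finsupp.degree_mapDomain h b, hb, Finsupp.degree_mapDomain]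
  refine ⟨?_, hs⟩
  rw [← Finset.card_image_iff]
  refine le_antisymm Finset.card_image_le ?_
  rw [hs, Finset.card_image_iff.2 hinj]
  exact hcard hdeg

private theorem mapDomain_ex (α : Fin c →₀ ℕ) (h : Fin n → Fin c) (V : Finset (Fin n))
    (hV : Set.InjOn h (V : Set (Fin n))) (hE : V.image h = α.support) :
    (ex (⇑α) h V).mapDomain h = α := by
  classical
  unfold ex
  rw [Finsupp.mapDomain_finsetSum]
  simp only [Finsupp.mapDomain_single]
  rw [← Finset.sum_image (s := V) (g := h) (f := fun y => Finsupp.single y (α y)) hV, hE]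
  exact Finsupp.sum_single α

private theorem support_ex (α : Fin c →₀ ℕ) (h : Fin n → Fin c) (V : Finset (Fin n))
    (hE : V.image h = α.support) : (ex (⇑α) h V).support = V := by
  classical
  ext i
  rw [Finsupp.mem_support_iff, ex_apply]
  by_cases hi : i ∈ V
  · rw [if_pos hi]
    have : h i ∈ α.support := hE ▸ Finset.mem_image_of_mem h hi
    exact ⟨fun _ => hi, fun _ => Finsupp.mem_support_iff.1 this⟩
  · rw [if_neg hi]
    exact ⟨fun h0 => absurd rfl h0, fun h0 => absurd h0 hi⟩

/- PLAN.  `R F h z = ∑_(b ∈ F.support) monomial (b.mapDomain h) (coeff b F * ∏_i z i ^ b i)`.  The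
coefficient at `α = a.mapDomain h` is the sum over the `b` with `b.mapDomain h = α`; such a `b` with
`coeff b F ≠ 0` has `b.degree = a.degree` (`degree` of `mapDomain`), so
`b.support.card ≤ a.support.card = (a.support.image h).card`, while
`h '' b.support = α.support = a.support.image h`; hence `h` is injective on `V = b.support`,
`V.image h = a.support.image h` and `b = ex α h V`.  Conversely for every `V` with `h` injective on
`V` and `V.image h = a.support.image h` the exponent `b = ex α h V` has support `V` (`α (h i) ≠ 0`)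
and `b.mapDomain h = α`, `∏_i z i ^ b i = ∏_(i ∈ V) z i ^ α (h i)`.  The right side is
`∑_V arr F α h V * ∏_(i ∈ V) z i ^ α (h i)`; `Finset.sum_bij_ne_zero`. -/
theorem coeff_R (F : MvPolynomial (Fin n) K) (a : Fin n →₀ ℕ)
    (hmax : ∀ a' : Fin n →₀ ℕ, a'.degree = a.degree → coeff a' F ≠ 0 →
      a'.support.card ≤ a.support.card)
    (h : Fin n → Fin c) (hinj : Set.InjOn h (a.support : Set (Fin n))) (z : Fin n → K) :
    coeff (a.mapDomain h) (R F h z) =
      eval (fun i => z i ^ (a.mapDomain h (h i)))
        (AOR.Hpoly (arr F (⇑(a.mapDomain h)) h) h (a.support.image h)) := by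
  classical
  have hsupp : a.support.image h = (a.mapDomain h).support :=
    (Finsupp.mapDomain_support_of_subsingletonAddUnits h a).symm
  rw [R_eq, coeff_sum]
  simp only [coeff_monomial]
  rw [← Finset.sum_filter]
  unfold AOR.Hpoly
  rw [map_sum]
  have key : ∀ b ∈ F.support.filter (fun b => b.mapDomain h = a.mapDomain h),
      Set.InjOn h (b.support : Set (Fin n)) ∧ b.support.image h = a.support.image h := by
    intro b hb
    rw [Finset.mem_filter, mem_support_iff] at hb
    exact exists_b hinj hb.2 fun hd => hmax b hd hb.1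
  have hex : ∀ b ∈ F.support.filter (fun b => b.mapDomain h = a.mapDomain h),
      ex (⇑(a.mapDomain h)) h b.support = b := by
    intro b hb
    have := ex_self b h (key b hb).1
    rw [Finset.mem_filter] at hb
    rwa [hb.2] at this
  refine Finset.sum_of_injOn (fun b => b.support) ?_ ?_ ?_ ?_
  · intro b hb b' hb' he
    have he' : b.support = b'.support := he
    rw [← hex b hb, ← hex b' hb', he']
  · intro b hb
    simp only [Finset.coe_filter, Finset.mem_univ, true_and, Set.mem_ofPred_eq]
    exact key b hb
  · intro V hV hnot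
    rw [Finset.mem_filter] at hV
    have hE : V.image h = (a.mapDomain h).support := hV.2.2.trans hsupp
    have h0 : arr F (⇑(a.mapDomain h)) h V = 0 := by
      by_contra hne
      apply hnot
      refine ⟨ex (⇑(a.mapDomain h)) h V, ?_, support_ex _ h V hE⟩
      rw [Finset.mem_coe, Finset.mem_filter, mem_support_iff]
      exact ⟨hne, mapDomain_ex _ h V hV.2.1 hE⟩
    rw [h0]
    simp
  · intro b hb
    rw [map_mul, eval_C, map_prod]
    simp only [eval_X]
    have h1 : arr F (⇑(a.mapDomain h)) h b.support = coeff b F := by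
      unfold arr
      rw [hex b hb]
    rw [h1]
    congr 1
    have h2 : ∀ i ∈ b.support, z i ^ (a.mapDomain h (h i)) = z i ^ b i := by
      intro i hi
      have h3 := congrArg (fun f : Fin n →₀ ℕ => f i) (hex b hb)
      simp only [ex_apply] at h3
      rw [if_pos hi] at h3
      rw [h3]
    rw [Finset.prod_congr rfl h2]
    symm
    refine Finset.prod_subset (Finset.subset_univ _) fun i _ hi => ?_
    rw [Finsupp.notMem_support_iff.1 hi, pow_zero]

end Pool.Agent.AOI
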