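import Pool.Agent.AOI.Defs

set_option autoImplicit false

namespace Pool.Agent.AOI

open MvPolynomial

private theorem PsA_map {K L : Type*} [Field K] [Field L] [Algebra K L] {n : ℕ}
    (f : MvPolynomial (Fin n) K) :
    aeval (fun i => (X i : MvPolynomial (Fin n) L)) f = map (algebraMap K L) f := by
  induction f using MvPolynomial.induction_on with
  | C a => simp [MvPolynomial.algebraMap_apply]
  | add p q hp hq => rw [map_add, map_add, hp, hq]
  | mul_X p i hp => rw [map_mul, map_mul, hp, aeval_X, map_X]

/- PLAN.  `ps f P univ = map (algebraMap K L) f ≠ 0` (`MvPolynomial.map_injective`); take `T` of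
minimal cardinality with `ps f P T ≠ 0` (`Finset.exists_min_image` or `Nat.find`). -/
theorem exists_minT {K L : Type*} [Field K] [Field L] [Algebra K L] {n : ℕ}
    (f : MvPolynomial (Fin n) K) (hf : f ≠ 0) (P : Fin n → L) :
    ∃ T, ps f P T ≠ 0 ∧ ∀ i ∈ T, ps f P (T.erase i) = 0 := by
  classical
  have key : ps f P Finset.univ = map (algebraMap K L) f := by
    unfold ps
    simp only [Finset.mem_univ, if_true]
    exact PsA_map f
  have hne : ps f P Finset.univ ≠ 0 := by
    rw [key]
    intro h
    apply hf
    apply map_injective (algebraMap K L) (algebraMap K L).injective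
    rw [h, map_zero]
  obtain ⟨T, hT, hmin⟩ := Finset.exists_min_image
    (Finset.univ.filter (fun T : Finset (Fin n) => ps f P T ≠ 0)) Finset.card
    ⟨Finset.univ, by simp [hne]⟩
  refine ⟨T, (Finset.mem_filter.1 hT).2, ?_⟩
  intro i hi
  by_contra h
  have h1 := hmin (T.erase i) (Finset.mem_filter.2 ⟨Finset.mem_univ _, h⟩)
  have h2 := Finset.card_erase_lt_of_mem hi
  omega

private theorem PsA_coeff {L : Type*} [Field L] {n : ℕ} (T : Finset (Fin n))
    (G : MvPolynomial (Fin n) L) (a : Fin n →₀ ℕ) :
    coeff a ((aeval (fun i => if i ∈ T then X i else 0) :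
      MvPolynomial (Fin n) L →ₐ[L] MvPolynomial (Fin n) L) G) =
      if a.support ⊆ T then coeff a G else 0 := by
  classical
  induction G using MvPolynomial.induction_on' with
  | monomial b r =>
    rw [aeval_monomial]
    by_cases hb : b.support ⊆ T
    · have h1 : (b.prod fun i k => (if i ∈ T then (X i : MvPolynomial (Fin n) L) else 0) ^ k) =
          b.prod fun i k => (X i : MvPolynomial (Fin n) L) ^ k := by
        refine Finsupp.prod_congr ?_
        intro i hi
        rw [if_pos (hb hi)]
      rw [h1, algebraMap_eq, ← monomial_eq]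
      split_ifs with ha
      · rfl
      · rw [coeff_monomial, if_neg]
        rintro rfl
        exact ha hb
    · have h1 : (b.prod fun i k => (if i ∈ T then (X i : MvPolynomial (Fin n) L) else 0) ^ k) =
          0 := by
        rw [Finset.not_subset] at hb
        obtain ⟨i, hi, hiT⟩ := hb
        refine Finset.prod_eq_zero hi ?_
        show (if i ∈ T then (X i : MvPolynomial (Fin n) L) else 0) ^ (b i) = 0
        rw [if_neg hiT]
        exact zero_pow (Finsupp.mem_support_iff.1 hi)
      rw [h1, mul_zero, coeff_zero]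
      split_ifs with ha
      · rw [coeff_monomial, if_neg]
        rintro rfl
        exact hb ha
      · rfl
  | add p q hp hq =>
    rw [map_add, coeff_add, hp, hq, coeff_add]
    split_ifs <;> simp

private theorem PsA_inj {L : Type*} [Field L] {n : ℕ} (P : Fin n → L) :
    Function.Injective (aeval (fun i => C (P i) + X i) :
      MvPolynomial (Fin n) L →ₐ[L] MvPolynomial (Fin n) L) := by
  intro p q h
  have h2 : ∀ G : MvPolynomial (Fin n) L,
      (aeval (fun i => X i - C (P i)) : MvPolynomial (Fin n) L →ₐ[L] MvPolynomial (Fin n) L)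
        ((aeval (fun i => C (P i) + X i) :
          MvPolynomial (Fin n) L →ₐ[L] MvPolynomial (Fin n) L) G) = G := by
    intro G
    rw [comp_aeval_apply]
    simp
  rw [← h2 p, h, h2 q]

/- PLAN.  Let `θ : MvPolynomial (Fin n) L →ₐ[L] _`, `X i ↦ if i ∈ T then X i else 0`.  Then
`θ (sh f P) = aeval (fun i => C (P i) + X i) (ps f P T)` (both are `K`-algebra homomorphisms of `f`:
compare on `X i`; write `φ : MvPolynomial (Fin n) L →ₐ[L] _`, `X i ↦ C (P i) + X i`, which sends
`if i ∈ T then X i else C (P i)` to `C (P i) + if i ∈ T then X i else 0`).  `φ` is injective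
(inverse `X i ↦ X i - C (P i)`), so `θ (sh f P) ≠ 0`: some coefficient at `a` is not zero;
`coeff a (θ G) = if a.support ⊆ T then coeff a G else 0` (`θ (monomial b r)` is `monomial b r` or
`0`; induction on `G` or `MvPolynomial.as_sum`). -/
theorem exists_coeff_sh {K L : Type*} [Field K] [Field L] [Algebra K L] {n : ℕ}
    (f : MvPolynomial (Fin n) K) (P : Fin n → L) (T : Finset (Fin n)) (hT : ps f P T ≠ 0) :
    ∃ a : Fin n →₀ ℕ, a.support ⊆ T ∧ coeff a (sh f P) ≠ 0 := by
  classical
  let θ : MvPolynomial (Fin n) L →ₐ[L] MvPolynomial (Fin n) L :=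
    aeval (fun i => if i ∈ T then X i else 0)
  let φ : MvPolynomial (Fin n) L →ₐ[L] MvPolynomial (Fin n) L :=
    aeval (fun i => C (P i) + X i)
  have h1 : θ (sh f P) = φ (ps f P T) := by
    have e1 : θ (sh f P) = aeval (fun i => θ (C (P i) + X i)) f := by
      have := comp_aeval_apply (R := K) (fun i => C (P i) + X i) (θ.restrictScalars K) f
      exact this
    have e2 : φ (ps f P T) = aeval (fun i => φ (if i ∈ T then X i else C (P i))) f := by
      have := comp_aeval_apply (R := K) (fun i => if i ∈ T then X i else C (P i))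
        (φ.restrictScalars K) f
      exact this
    rw [e1, e2]
    congr 2
    funext i
    by_cases hi : i ∈ T
    · simp [θ, φ, hi]
    · simp [θ, φ, hi]
  have h2 : θ (sh f P) ≠ 0 := by
    rw [h1]
    intro h
    exact hT (PsA_inj P (by rw [map_zero]; exact h))
  obtain ⟨a, ha⟩ := exists_coeff_ne_zero h2
  rw [PsA_coeff] at ha
  by_cases hs : a.support ⊆ T
  · rw [if_pos hs] at ha
    exact ⟨a, hs, ha⟩
  · rw [if_neg hs] at ha
    exact absurd rfl ha

end Pool.Agent.AOI
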