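import Pool.Agent.AOI.Defs
import Pool.Agent.AOR.Homog

set_option autoImplicit false

/-! AOD-RV: the parameters `r` and `v`. -/

namespace Pool.Agent.AOI

open MvPolynomial
open Pool.Agent.SPD (hitPt)

private theorem rv_eval {K : Type*} [Field K] {n c : ℕ} (F : MvPolynomial (Fin n) K)
    (h : Fin n → Fin c) (z : Fin n → K) (y : Fin c → K) :
    eval y (R F h z) = eval (fun i => z i * y (h i)) F := by
  unfold R
  induction F using MvPolynomial.induction_on with
  | C a => rw [aeval_C, algebraMap_eq, eval_C, eval_C]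
  | add p q hp hq => rw [map_add, map_add, hp, hq, map_add]
  | mul_X p i hp => rw [map_mul, map_mul, hp, aeval_X, map_mul, eval_C, eval_X, map_mul, eval_X]

private theorem rv_deg {K : Type*} [Field K] {n c : ℕ} (F : MvPolynomial (Fin n) K)
    (h : Fin n → Fin c) (z : Fin n → K) : (R F h z).totalDegree ≤ F.totalDegree := by
  classical
  unfold R
  rw [aeval_def, eval₂_eq']
  refine totalDegree_finsetSum_le fun d hd => ?_
  refine (totalDegree_mul _ _).trans ?_
  rw [algebraMap_eq, totalDegree_C, zero_add]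
  refine (totalDegree_finsetProd _ _).trans ?_
  have h1 := le_totalDegree hd
  rw [Finsupp.sum_fintype _ _ (fun _ => rfl)] at h1
  refine le_trans (Finset.sum_le_sum fun i _ => ?_) h1
  refine (totalDegree_pow _ _).trans ?_
  refine le_trans (Nat.mul_le_mul_left _ ((totalDegree_mul _ _).trans ?_)) (le_of_eq (mul_one _))
  rw [totalDegree_C, zero_add]
  exact le_of_eq (totalDegree_X _)

theorem exists_rv {K : Type*} [Field K] [CharZero K] {n k D : ℕ} (F : MvPolynomial (Fin n) K)
    (hF : F.totalDegree ≤ D) (h : Fin n → Fin (AOR.ncol k)) (z : Fin n → K)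
    (α : Fin (AOR.ncol k) →₀ ℕ) (hα : α.degree ≤ k) (hne : coeff α (R F h z) ≠ 0) :
    ∃ r ≤ k * AOR.M3 k, ∃ v ≤ D,
      eval (fun i => z i * ((v : K) * ((hitPt (AOR.M3 k) ((h i : ℕ) + 1) r : ℕ) : K))) F ≠ 0 := by
  classical
  have hdeg : (R F h z).totalDegree ≤ D := (rv_deg F h z).trans hF
  obtain ⟨g', hg'⟩ : ∃ g', g' = homogeneousComponent α.degree (R F h z) := ⟨_, rfl⟩
  have hg0 : g' ≠ 0 := by
    intro h0
    apply hne
    have h1 : coeff α g' = coeff α (R F h z) := by
      rw [hg', coeff_homogeneousComponent, if_pos rfl]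
    rw [← h1, h0, coeff_zero]
  have hgd : g'.totalDegree ≤ α.degree := by
    rw [hg']
    exact (homogeneousComponent_isHomogeneous _ _).totalDegree_le
  have hfr : Module.finrank K (SPD.derivSpace g') ≤ 2 ^ (AOR.ncol k + k) :=
    (AOR.finrank_derivSpace_deg (AOR.ncol k) α.degree g' hgd).trans
      (Nat.pow_le_pow_right (by norm_num) (by omega))
  obtain ⟨r, hr, hrne⟩ := SPD.hit_main (K := K) (AOR.ncol k) α.degree (2 ^ (AOR.ncol k + k)) 1
    (fun _ => g') (fun _ => hg0) (fun _ => hfr) g' (by simp) hgd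
  have hr2 : eval (fun i : Fin (AOR.ncol k) => ((hitPt (AOR.M3 k) ((i : ℕ) + 1) r : ℕ) : K))
      (homogeneousComponent α.degree (R F h z)) ≠ 0 := by
    rw [← hg']
    exact hrne
  obtain ⟨v, hv, hvne⟩ := AOR.exists_v (R F h z) hdeg α.degree _ hr2
  refine ⟨r, hr.trans (Nat.mul_le_mul_right _ hα), v, hv, ?_⟩
  rw [rv_eval] at hvne
  exact hvne

end Pool.Agent.AOI
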