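import Pool.Agent.AOI.Defs

set_option autoImplicit false

namespace Pool.Agent.AOI

open MvPolynomial

private theorem shd_base {A : Type*} [CommRing A] [Nontrivial A] {n : ℕ} (a : A) (i j : Fin n) :
    (C a + X j : MvPolynomial (Fin n) A).degreeOf i ≤ if i = j then 1 else 0 := by
  refine (degreeOf_add_le _ _ _).trans ?_
  rw [degreeOf_C, degreeOf_X]
  simp

theorem sh_degreeOf {K A : Type*} [CommRing K] [CommRing A] [Algebra K A] [Nontrivial A] {n : ℕ}
    (f : MvPolynomial (Fin n) K) (P : Fin n → A) (i : Fin n) :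
    (sh f P).degreeOf i ≤ f.degreeOf i := by
  unfold sh
  rw [aeval_def, eval₂_eq']
  refine (degreeOf_sum_le _ _ _).trans (Finset.sup_le fun b hb => ?_)
  have h1 : (algebraMap K (MvPolynomial (Fin n) A)) (coeff b f) = C (algebraMap K A (coeff b f)) :=
    rfl
  rw [h1]
  refine (degreeOf_mul_le _ _ _).trans ?_
  rw [degreeOf_C, zero_add]
  refine (degreeOf_prod_le _ _ _).trans ?_
  refine le_trans ?_ (monomial_le_degreeOf i hb)
  have h2 : ∀ j ∈ Finset.univ, degreeOf i ((C (P j) + X j : MvPolynomial (Fin n) A) ^ b j) ≤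
      if i = j then b j else 0 := by
    intro j _
    refine (degreeOf_pow_le _ _ _).trans ?_
    refine (Nat.mul_le_mul_left _ (shd_base (P j) i j)).trans ?_
    split_ifs <;> simp
  refine (Finset.sum_le_sum h2).trans ?_
  simp

theorem totalDegree_le {K : Type*} [CommRing K] {n d : ℕ} (f : MvPolynomial (Fin n) K)
    (hd : ∀ i, f.degreeOf i ≤ d) : f.totalDegree ≤ n * d := by
  unfold totalDegree
  refine Finset.sup_le fun b hb => ?_
  rw [Finsupp.sum_fintype _ _ (fun _ => rfl)]
  refine (Finset.sum_le_sum fun i _ => (monomial_le_degreeOf i hb).trans (hd i)).trans ?_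
  simp

theorem eval_sh {K : Type*} [CommRing K] {n : ℕ} (f : MvPolynomial (Fin n) K) (p y : Fin n → K) :
    eval y (sh f p) = eval (fun i => p i + y i) f := by
  unfold sh
  induction f using MvPolynomial.induction_on with
  | C a => simp
  | add f g hf hg => rw [map_add, map_add, map_add, hf, hg]
  | mul_X f j hf => rw [map_mul, map_mul, map_mul, hf, aeval_X]; simp

end Pool.Agent.AOI
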