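import Pool.Agent.AOI.LamA

set_option autoImplicit false

namespace Pool.Agent.AOI

open Polynomial

variable {K : Type*} [Field K] {n c : ℕ}

/-- The value at `z_i = 1 + ξ_i v` as a polynomial in `v`. -/
noncomputable def qq (a : Finset (Fin n) → K) (h : Fin n → Fin c) (E : Finset (Fin c))
    (β : Fin c → ℕ) (ξ : Fin n → K) : K[X] :=
  open Classical in
  ∑ V ∈ Finset.univ.filter (fun V : Finset (Fin n) =>
      Set.InjOn h (V : Set (Fin n)) ∧ V.image h = E),
    C (a V) * ∏ i ∈ V, (1 + C (ξ i) * X) ^ β (h i)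

theorem eval_qq (a : Finset (Fin n) → K) (h : Fin n → Fin c) (E : Finset (Fin c))
    (β : Fin c → ℕ) (ξ : Fin n → K) (v : K) :
    (qq a h E β ξ).eval v =
      MvPolynomial.eval (fun i => (1 + v * ξ i) ^ β (h i)) (AOR.Hpoly a h E) := by
  classical
  unfold qq AOR.Hpoly
  rw [Polynomial.eval_finsetSum, map_sum]
  refine Finset.sum_congr ?_ ?_
  · ext V
    simp only [Finset.mem_filter, Finset.mem_univ, true_and]
  · intro V _
    rw [Polynomial.eval_mul, Polynomial.eval_C, Polynomial.eval_prod, map_mul,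
      MvPolynomial.eval_C, map_prod]
    congr 1
    refine Finset.prod_congr rfl fun i _ => ?_
    rw [MvPolynomial.eval_X, Polynomial.eval_pow, Polynomial.eval_add, Polynomial.eval_one,
      Polynomial.eval_mul, Polynomial.eval_C, Polynomial.eval_X, mul_comm (ξ i) v]

/- `∏_(i ∈ V) (1 + ξ_i v) ^ β (h i)` has degree at most `∑_(i ∈ V) β (h i) = ∑_(j ∈ E) β j`
(`Finset.sum_image`). -/
theorem natDegree_qq (a : Finset (Fin n) → K) (h : Fin n → Fin c) (E : Finset (Fin c))
    (β : Fin c → ℕ) (ξ : Fin n → K) : (qq a h E β ξ).natDegree ≤ ∑ j ∈ E, β j := by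
  classical
  unfold qq
  refine Polynomial.natDegree_sum_le_of_forall_le _ _ fun V hV => ?_
  obtain ⟨-, hi, hE⟩ := Finset.mem_filter.1 hV
  refine (Polynomial.natDegree_C_mul_le _ _).trans ?_
  refine (Polynomial.natDegree_prod_le _ _).trans ?_
  rw [← hE, Finset.sum_image hi]
  refine Finset.sum_le_sum fun i _ => ?_
  refine (Polynomial.natDegree_pow_le).trans ?_
  have h1 : (1 + C (ξ i) * X : K[X]).natDegree ≤ 1 := by
    refine (Polynomial.natDegree_add_le _ _).trans ?_
    rw [Polynomial.natDegree_one]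
    refine max_le (Nat.zero_le _) ?_
    refine (Polynomial.natDegree_C_mul_le _ _).trans ?_
    exact Polynomial.natDegree_X_le
  calc β (h i) * (1 + C (ξ i) * X : K[X]).natDegree ≤ β (h i) * 1 :=
        Nat.mul_le_mul_left _ h1
    _ = β (h i) := Nat.mul_one _

private theorem qq_exR (ξ : K) (b : ℕ) :
    ∃ r : K[X], (1 + C ξ * X : K[X]) ^ b = 1 + X * r ∧ r.coeff 0 = (b : K) * ξ := by
  induction b with
  | zero => exact ⟨0, by simp, by simp⟩
  | succ b ih =>
    obtain ⟨r, hr, h0⟩ := ih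
    refine ⟨r + C ξ + X * (C ξ * r), ?_, ?_⟩
    · rw [pow_succ, hr]
      ring
    · rw [Polynomial.coeff_add, Polynomial.coeff_add, h0, Polynomial.coeff_C_zero,
        Polynomial.mul_coeff_zero X, Polynomial.coeff_X_zero, zero_mul, add_zero]
      push_cast
      ring

/- PLAN.  `Y_i = (1 + ξ_i X) ^ β (h i) - 1 = X * r_i`, `r_i.coeff 0 = β (h i) * ξ i`.  Expanding
`∏_(i ∈ V) (1 + Y_i) = ∑_(U ⊆ V) ∏_(i ∈ U) Y_i` (`Finset.prod_one_add`/`Finset.prod_add`) and
exchanging the sums gives `qq = ∑_U C (SU a h E U) * ∏_(i ∈ U) Y_i`.  `∏_(i ∈ U) Y_i =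
X ^ U.card * ∏ r_i`: its coefficient at `l` is `0` if `U.card > l` and `∏ (β (h i) * ξ i)` if
`U.card = l`; the sets with `U.card < l` do not contribute by `hl`. -/
theorem coeff_qq (a : Finset (Fin n) → K) (h : Fin n → Fin c) (E : Finset (Fin c))
    (β : Fin c → ℕ) (ξ : Fin n → K) (l : ℕ) (hl : ∀ U, U.card < l → SU a h E U = 0) :
    (qq a h E β ξ).coeff l =
      MvPolynomial.eval ξ (Lam a h E (fun i => (β (h i) : K)) l) := by
  classical
  choose r hr hr0 using fun i => qq_exR (ξ i) (β (h i))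
  have h1 : qq a h E β ξ = ∑ U : Finset (Fin n), C (SU a h E U) * ∏ i ∈ U, (X * r i) := by
    unfold qq SU
    have h2 : ∀ V : Finset (Fin n), (∏ i ∈ V, (1 + C (ξ i) * X : K[X]) ^ β (h i)) =
        ∑ U : Finset (Fin n), if U ⊆ V then ∏ i ∈ U, (X * r i) else 0 := by
      intro V
      rw [Finset.prod_congr rfl (fun i _ => hr i), Finset.prod_one_add, ← Finset.sum_filter]
      refine Finset.sum_congr ?_ (fun _ _ => rfl)
      ext U
      rw [Finset.mem_powerset, Finset.mem_filter]
      exact ⟨fun hU => ⟨Finset.mem_univ _, hU⟩, fun hU => hU.2⟩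
    simp only [h2, Finset.mul_sum]
    rw [Finset.sum_comm]
    refine Finset.sum_congr rfl fun U _ => ?_
    rw [map_sum, Finset.sum_mul]
    rw [Finset.sum_filter, Finset.sum_filter]
    refine Finset.sum_congr rfl fun V _ => ?_
    by_cases hV : Set.InjOn h (V : Set (Fin n)) ∧ V.image h = E
    · by_cases hU : U ⊆ V
      · simp [hV, hU]
      · simp [hV, hU]
    · simp [hV]
  have h3 : ∀ U : Finset (Fin n), (∏ i ∈ U, (X * r i) : K[X]) = X ^ U.card * ∏ i ∈ U, r i := by
    intro U
    rw [Finset.prod_mul_distrib, Finset.prod_const]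
  rw [h1, Polynomial.finsetSum_coeff]
  unfold Lam
  rw [map_sum]
  rw [← Finset.sum_filter_add_sum_filter_not Finset.univ
    (fun U : Finset (Fin n) => U.card = l)
    (fun U => (C (SU a h E U) * ∏ i ∈ U, (X * r i) : K[X]).coeff l)]
  rw [Finset.sum_eq_zero (s := Finset.univ.filter (fun U : Finset (Fin n) => ¬ U.card = l))]
  · rw [add_zero]
    refine Finset.sum_congr ?_ ?_
    · ext U
      simp only [Finset.mem_filter, Finset.mem_univ, true_and]
    · intro U hU
      have hUl : U.card = l := (Finset.mem_filter.1 hU).2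
      rw [h3, Polynomial.coeff_C_mul, hUl]
      have h4 : (X ^ l * ∏ i ∈ U, r i : K[X]).coeff l = (∏ i ∈ U, r i : K[X]).coeff 0 := by
        have := Polynomial.coeff_X_pow_mul (∏ i ∈ U, r i : K[X]) l 0
        rwa [zero_add] at this
      rw [h4, Polynomial.coeff_zero_prod, map_mul, MvPolynomial.eval_C, map_prod]
      simp only [MvPolynomial.eval_X, hr0]
      rw [Finset.prod_mul_distrib, mul_assoc]
  · intro U hU
    have hUl : ¬ U.card = l := (Finset.mem_filter.1 hU).2
    rcases lt_or_gt_of_ne hUl with h5 | h5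
    · rw [hl U h5, C_0, zero_mul, Polynomial.coeff_zero]
    · rw [h3, Polynomial.coeff_C_mul, Polynomial.coeff_X_pow_mul', if_neg (not_le.2 h5), mul_zero]

end Pool.Agent.AOI
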