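import Pool.Agent.AOI.LamB
import Pool.Agent.AOI.QQ

set_option autoImplicit false

namespace Pool.Agent.AOI

open MvPolynomial
open Pool.Agent.SPD (hitPt)

/- `SU a h (T.image h) T = a T ≠ 0` (`SU_self`), so there is `U` with `SU ≠ 0` of minimal
cardinality `l`.  `E = T.image h`, `E.card ≤ ∑_(j ∈ E) β j ≤ k`, `l ≤ E.card ≤ k` (`SU_ne_zero`).
`Λ = Lam a h E (fun i => β (h i)) l ≠ 0` (`Lam_ne_zero`, char 0), `finrank (derivSpace Λ) ≤
w * 4 ^ E.card ≤ w * 4 ^ k`.  `SPD.hit_main n l (w * 4 ^ k) 1 (fun _ => Λ) ..` gives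
`u ≤ l * (n * (w * 4 ^ k) ^ 2)` with `Λ (ξ) ≠ 0`, `ξ i = hitPt ..`.  Then `qq a h E β ξ ≠ 0`
(`coeff_qq` at `l`), of degree at most `k` (`natDegree_qq`), so it does not vanish at some natural
`v ≤ k` (`Polynomial.eq_zero_of_natDegree_lt_card_of_eval_eq_zero'`, see `AOR.exists_v`), and
`eval_qq`. -/
theorem exists_uv {K : Type*} [Field K] [CharZero K] {n c w k : ℕ} (a : Finset (Fin n) → K)
    (hw : AOR.Flat w a) (h : Fin n → Fin c) (T : Finset (Fin n))
    (hT : Set.InjOn h (T : Set (Fin n))) (ha : a T ≠ 0) (β : Fin c → ℕ)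
    (hβ : ∀ j ∈ T.image h, β j ≠ 0) (hk : ∑ j ∈ T.image h, β j ≤ k) :
    ∃ u ≤ k * (n * (w * 4 ^ k) ^ 2), ∃ v ≤ k,
      eval (fun i : Fin n =>
        (1 + (v : K) * ((hitPt (n * (w * 4 ^ k) ^ 2) ((i : ℕ) + 1) u : ℕ) : K)) ^ β (h i))
        (AOR.Hpoly a h (T.image h)) ≠ 0 := by
  classical
  obtain ⟨E, hE⟩ : ∃ E, E = T.image h := ⟨_, rfl⟩
  rw [← hE] at hβ hk ⊢
  have hEk : E.card ≤ k := by
    refine le_trans ?_ hk
    rw [Finset.card_eq_sum_ones]
    exact Finset.sum_le_sum fun j hj => Nat.one_le_iff_ne_zero.2 (hβ j hj)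
  have hex : ∃ l : ℕ, ∃ U : Finset (Fin n), U.card = l ∧ SU a h E U ≠ 0 := by
    refine ⟨T.card, T, rfl, ?_⟩
    rw [hE, SU_self a h T hT]
    exact ha
  obtain ⟨U, hUc, hU⟩ := Nat.find_spec hex
  have hmin : ∀ V : Finset (Fin n), V.card < Nat.find hex → SU a h E V = 0 := by
    intro V hV
    by_contra hne
    exact Nat.find_min hex hV ⟨V, rfl, hne⟩
  obtain ⟨l, hl⟩ : ∃ l, l = Nat.find hex := ⟨_, rfl⟩
  rw [← hl] at hUc hmin
  have hinj := SU_ne_zero a h E U hU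
  have hlk : l ≤ k := by
    rw [← hUc]
    refine le_trans ?_ hEk
    rw [← Finset.card_image_of_injOn hinj.1]
    exact Finset.card_le_card hinj.2
  have hL0 : Lam a h E (fun i => (β (h i) : K)) l ≠ 0 := by
    rw [← hUc]
    exact Lam_ne_zero a h E _ (fun i hi => Nat.cast_ne_zero.2 (hβ _ hi)) U hU
  have hfr : Module.finrank K (SPD.derivSpace (Lam a h E (fun i => (β (h i) : K)) l)) ≤
      w * 4 ^ k :=
    (finrank_Lam a hw h E _ l).trans
      (Nat.mul_le_mul_left _ (Nat.pow_le_pow_right (by norm_num) hEk))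
  obtain ⟨u, hu, hune⟩ := SPD.hit_main (K := K) n l (w * 4 ^ k) 1
    (fun _ => Lam a h E (fun i => (β (h i) : K)) l) (fun _ => hL0) (fun _ => hfr)
    (Lam a h E (fun i => (β (h i) : K)) l) (by simp) (Lam_totalDegree a h E _ l)
  refine ⟨u, hu.trans (Nat.mul_le_mul_right _ hlk), ?_⟩
  obtain ⟨ξ, hξ⟩ : ∃ ξ : Fin n → K, ξ = fun i : Fin n =>
    ((hitPt (n * (w * 4 ^ k) ^ 2) ((i : ℕ) + 1) u : ℕ) : K) := ⟨_, rfl⟩
  rw [← hξ, ← coeff_qq a h E β ξ l hmin] at hune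
  by_contra hcon
  push Not at hcon
  apply hune
  have hz : qq a h E β ξ = 0 := by
    refine Polynomial.eq_zero_of_natDegree_lt_card_of_eval_eq_zero' (qq a h E β ξ)
      ((Finset.range (k + 1)).image (fun v : ℕ => (v : K))) ?_ ?_
    · intro x hx
      obtain ⟨v, hv, rfl⟩ := Finset.mem_image.1 hx
      rw [eval_qq, hξ]
      exact hcon v (by have := Finset.mem_range.1 hv; omega)
    · rw [Finset.card_image_of_injective _ Nat.cast_injective, Finset.card_range]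
      have := natDegree_qq a h E β ξ
      omega
  rw [hz, Polynomial.coeff_zero]

end Pool.Agent.AOI
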