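import Pool.Agent.AOI.CutSh
import Pool.Agent.AOI.Arr
import Pool.Agent.AOI.PsA
import Pool.Agent.AOI.IndGm
import Pool.Agent.AOI.LowT
import Pool.Agent.AOI.ExT
import Pool.Agent.AOI.MaxS
import Pool.Agent.AOI.UV
import Pool.Agent.AOI.RV
import Pool.Agent.AOI.ShDeg
import Pool.Agent.AOI.Card
import Pool.Agent.AOR.HashC

set_option autoImplicit false

namespace Pool.Agent.AOI

open MvPolynomial
open Pool.Agent.SPD (hitPt)

theorem Cuts.sh {K : Type*} [Field K] {n w : ℕ} {f : MvPolynomial (Fin n) K} (hf : Cuts w f)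
    (p : Fin n → K) : Cuts w (sh f p) := fun S => (hf S).sh p

theorem hit {K : Type*} [Field K] [CharZero K] {n d w : ℕ} (hd1 : 1 ≤ d)
    (f : MvPolynomial (Fin n) K) (hf : f ≠ 0) (hd : ∀ i, f.degreeOf i ≤ d) (hw : Cuts w f) :
    ∃ x ∈ points n d w, eval (fun i => ((x i : ℕ) : K)) f ≠ 0 := by
  classical
  set k := KK d w with hk
  obtain ⟨T, hT, hmin⟩ := exists_minT f hf (gL K n (s1 d w))
  have hTc : T.card ≤ 3 * k0 w := card_le hd1 f hd _
    (indP_gL n (m := 4 * d) (k := k0 w) (by omega) le_rfl) T hT hmin (hw T)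
  obtain ⟨a0, ha0T, ha0⟩ := exists_coeff_sh f _ T hT
  obtain ⟨t, ht, htne⟩ := exists_t f hd a0 ha0
  set p : Fin n → K := fun i => ((hitPt (n * s1 d w ^ 2) ((i : ℕ) + 1) t : ℕ) : K) with hp
  set F := sh f p with hF
  have hFd : ∀ i, F.degreeOf i ≤ d := fun i => (sh_degreeOf f p i).trans (hd i)
  have ha0d : a0.degree ≤ k := by
    have h1 : ∀ i ∈ a0.support, a0 i ≤ d := fun i _ =>
      (monomial_le_degreeOf i (mem_support_iff.2 htne)).trans (hFd i)
    have h2 : a0.degree = ∑ i ∈ a0.support, a0 i := rfl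
    rw [h2]
    refine (Finset.sum_le_card_nsmul _ _ d h1).trans ?_
    rw [smul_eq_mul, hk]
    unfold KK
    rw [mul_comm]
    exact Nat.mul_le_mul_left _ ((Finset.card_le_card ha0T).trans hTc)
  obtain ⟨a, had, hane, hmax⟩ := exists_max F a0 htne
  have hadk : a.degree ≤ k := had.le.trans ha0d
  have hsupp : a.support.card ≤ k := by
    refine le_trans ?_ hadk
    have h2 : a.degree = ∑ i ∈ a.support, a i := rfl
    rw [h2, Finset.card_eq_sum_ones]
    exact Finset.sum_le_sum fun i hi => Nat.one_le_iff_ne_zero.2 (Finsupp.mem_support_iff.1 hi)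
  obtain ⟨h, hh, hinj⟩ := AOR.family_separates n k a.support hsupp
  set α := a.mapDomain h with hα
  have hαa : ∀ i ∈ a.support, α (h i) = a i := fun i hi =>
    Finsupp.mapDomain_apply' (a.support : Set (Fin n)) a (by simp) hinj hi
  have hαd : α.degree = a.degree := by
    rw [hα]
    exact Finsupp.degree_mapDomain h a
  have hβ : ∀ j ∈ a.support.image h, α j ≠ 0 := by
    intro j hj
    obtain ⟨i, hi, rfl⟩ := Finset.mem_image.1 hj
    rw [hαa i hi]
    exact Finsupp.mem_support_iff.1 hi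
  have hsum : ∑ j ∈ a.support.image h, α j ≤ k := by
    rw [Finset.sum_image hinj, Finset.sum_congr rfl hαa]
    exact hadk
  obtain ⟨u, hu, v', hv', hne⟩ := exists_uv (k := k) (arr F (⇑α) h)
    (flat_arr F (hw.sh p) (⇑α) h) h a.support hinj
    (by rw [arr_self F a h hinj]; exact hane) (⇑α) hβ hsum
  set z : Fin n → K := fun i =>
    1 + (v' : K) * ((hitPt (n * (w * 4 ^ k) ^ 2) ((i : ℕ) + 1) u : ℕ) : K) with hz
  have hR : coeff α (R F h z) ≠ 0 := by
    rw [hα, coeff_R F a hmax h hinj z]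
    exact hne
  obtain ⟨r, hr, v, hv, hne'⟩ := exists_rv F (totalDegree_le F hFd) h z α (hαd.le.trans hadk) hR
  refine ⟨point n d w t u v' r v h, ?_, ?_⟩
  · unfold points
    rw [Finset.mem_image]
    refine ⟨(t, u, v', r, v, h), ?_, rfl⟩
    simp only [Finset.mem_product, Finset.mem_range]
    exact ⟨Nat.lt_succ_of_le ht, Nat.lt_succ_of_le hu, Nat.lt_succ_of_le hv', Nat.lt_succ_of_le hr,
      Nat.lt_succ_of_le hv, hh⟩
  · have heq : (fun i => ((point n d w t u v' r v h i : ℕ) : K)) = fun i => p i + z i *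
        ((v : K) * ((hitPt (AOR.M3 k) ((h i : ℕ) + 1) r : ℕ) : K)) := by
      funext i
      rw [hz, hp]
      simp only
      unfold point s2
      push_cast
      rfl
    rw [heq, ← eval_sh f p]
    exact hne'

end Pool.Agent.AOI
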