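import Pool.Agent.AOI.Defs

set_option autoImplicit false

namespace Pool.Agent.AOI

open MvPolynomial

variable {K L : Type*} [Field K] [Field L] [Algebra K L] {n : ℕ}

private theorem psS (f : MvPolynomial (Fin n) K) (P : Fin n → L) (T : Finset (Fin n)) :
    aeval (fun i => if i ∈ T then (X i : MvPolynomial (Fin n) L) else C (P i)) f ∈
      supported L (T : Set (Fin n)) := by
  induction f using MvPolynomial.induction_on with
  | C r =>
    rw [algHom_C]
    exact (supported L (T : Set (Fin n))).algebraMap_mem (algebraMap K L r)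
  | add f g hf hg =>
    rw [map_add]
    exact Subalgebra.add_mem _ hf hg
  | mul_X f i hf =>
    rw [map_mul, aeval_X]
    refine Subalgebra.mul_mem _ hf ?_
    split_ifs with hi
    · exact X_mem_supported.2 (by exact_mod_cast hi)
    · exact (supported L (T : Set (Fin n))).algebraMap_mem (P i)

/- PLAN.  `(ps f P T).vars ⊆ T` (as in `CutSh`: all images of the variables are in
`supported L T`), then `MvPolynomial.mem_vars`. -/
theorem ps_support (f : MvPolynomial (Fin n) K) (P : Fin n → L) (T : Finset (Fin n))
    (a : Fin n →₀ ℕ) (ha : coeff a (ps f P T) ≠ 0) : a.support ⊆ T := by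
  have h : ps f P T ∈ supported L (T : Set (Fin n)) := psS f P T
  rw [mem_supported] at h
  intro i hi
  have h2 : i ∈ (ps f P T).vars := by
    rw [mem_vars_iff_mem_support]
    exact ⟨a, mem_support_iff.2 ha, hi⟩
  exact_mod_cast h h2

/- PLAN.  `f` is the sum of its monomials; `degreeOf_add_le`, `degreeOf_mul_le`, `degreeOf_pow_le`,
`degreeOf_prod_le`..; for a monomial `b`: `ps` is `C r * ∏_j (if j ∈ T then X j else C (P j)) ^ b j`
which has `degreeOf i ≤ b i ≤ f.degreeOf i`.  (Or through `degreeOf_le_iff` and the coefficients.) -/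
theorem ps_degreeOf (f : MvPolynomial (Fin n) K) (P : Fin n → L) (T : Finset (Fin n)) (i : Fin n) :
    (ps f P T).degreeOf i ≤ f.degreeOf i := by
  classical
  have hj : ∀ j, degreeOf i (if j ∈ T then (X j : MvPolynomial (Fin n) L) else C (P j)) ≤
      if j = i then 1 else 0 := by
    intro j
    split_ifs with h1 h2 h2
    · subst h2
      rw [degreeOf_X]
      simp
    · rw [degreeOf_X, if_neg (fun h => h2 h.symm)]
    · rw [degreeOf_C]
      exact Nat.zero_le _
    · rw [degreeOf_C]
  unfold ps
  conv_lhs => rw [f.as_sum, map_sum]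
  refine (degreeOf_sum_le _ _ _).trans (Finset.sup_le fun b hb => ?_)
  have h1 : b i ≤ f.degreeOf i := by
    rw [degreeOf_eq_sup]
    exact Finset.le_sup (f := fun m : Fin n →₀ ℕ => m i) hb
  refine le_trans ?_ h1
  rw [aeval_monomial]
  refine (degreeOf_mul_le _ _ _).trans ?_
  have h2 : degreeOf i (algebraMap K (MvPolynomial (Fin n) L) (coeff b f)) = 0 := by
    have h3 : algebraMap K (MvPolynomial (Fin n) L) (coeff b f) =
        C (algebraMap K L (coeff b f)) := rfl
    rw [h3, degreeOf_C]
  rw [h2, zero_add, Finsupp.prod_fintype _ _ (fun j => pow_zero _)]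
  refine (degreeOf_prod_le _ _ _).trans ?_
  have h4 : ∀ j ∈ (Finset.univ : Finset (Fin n)),
      degreeOf i ((if j ∈ T then (X j : MvPolynomial (Fin n) L) else C (P j)) ^ b j) ≤
        if j = i then b j else 0 := by
    intro j _
    refine (degreeOf_pow_le _ _ _).trans ?_
    refine (Nat.mul_le_mul_left _ (hj j)).trans ?_
    split_ifs <;> simp
  refine (Finset.sum_le_sum h4).trans ?_
  rw [Finset.sum_ite_eq' Finset.univ i (fun j => b j), if_pos (Finset.mem_univ i)]

theorem ps_erase (f : MvPolynomial (Fin n) K) (P : Fin n → L) (T : Finset (Fin n)) (i : Fin n)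
    (hi : i ∈ T) :
    ps f P (T.erase i) = aeval (fun j => if j = i then C (P i) else X j) (ps f P T) := by
  unfold ps
  have h := DFunLike.congr_fun (comp_aeval (R := K)
    (fun j => if j ∈ T then (X j : MvPolynomial (Fin n) L) else C (P j))
    ((aeval (fun j => if j = i then (C (P i) : MvPolynomial (Fin n) L) else X j)).restrictScalars
      K)) f
  rw [AlgHom.comp_apply] at h
  refine Eq.trans ?_ h.symm
  have e : (fun j => if j ∈ T.erase i then (X j : MvPolynomial (Fin n) L) else C (P j)) =
      fun j => (AlgHom.restrictScalars K (aeval (fun j => if j = i then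
        (C (P i) : MvPolynomial (Fin n) L) else X j)))
          (if j ∈ T then (X j : MvPolynomial (Fin n) L) else C (P j)) := by
    funext j
    rw [AlgHom.restrictScalars_apply]
    by_cases h1 : j = i
    · subst h1
      simp [hi]
    · by_cases h2 : j ∈ T
      · simp [h1, h2]
      · simp [h2, algHom_C]
  rw [e]

/- PLAN.  `q = ∑_b monomial b (coeff b q)`; the image of `monomial b r` is
`monomial (b.erase i) (r * p ^ b i)`; the coefficient at `μ` (`μ i = 0`) collects the
`b = μ + single i e`, `e ≤ d`. -/
theorem sum_coeff (q : MvPolynomial (Fin n) L) (i : Fin n) (p : L) (d : ℕ)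
    (hd : q.degreeOf i ≤ d)
    (hq : aeval (fun j => if j = i then C p else X j) q = (0 : MvPolynomial (Fin n) L))
    (μ : Fin n →₀ ℕ) (hμ : μ i = 0) :
    ∑ e : Fin (d + 1), p ^ (e : ℕ) * coeff (μ + Finsupp.single i (e : ℕ)) q = 0 := by
  classical
  have hm : ∀ (b : Fin n →₀ ℕ) (r : L),
      aeval (fun j => if j = i then C p else X j) (monomial b r) =
        (monomial (b.erase i) (r * p ^ b i) : MvPolynomial (Fin n) L) := by
    intro b r
    rw [aeval_monomial, Finsupp.prod_fintype _ _ (fun j => pow_zero _),
      ← Finset.mul_prod_erase _ _ (Finset.mem_univ i), if_pos rfl]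
    have h1 : ∏ j ∈ Finset.univ.erase i,
        (if j = i then (C p : MvPolynomial (Fin n) L) else X j) ^ b j =
          monomial (b.erase i) 1 := by
      rw [monomial_eq, C_1, one_mul, Finsupp.prod_fintype _ _ (fun j => pow_zero _),
        ← Finset.mul_prod_erase _ _ (Finset.mem_univ i), Finsupp.erase_same, pow_zero, one_mul]
      refine Finset.prod_congr rfl fun j hj => ?_
      have hj' : j ≠ i := Finset.ne_of_mem_erase hj
      rw [if_neg hj', Finsupp.erase_ne hj']
    rw [h1, algebraMap_eq, ← C_pow, ← mul_assoc, ← C_mul, C_mul_monomial, mul_one]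
  have h0 : coeff μ (aeval (fun j => if j = i then C p else X j) q :
      MvPolynomial (Fin n) L) = 0 := by rw [hq, coeff_zero]
  conv_lhs at h0 => rw [q.as_sum, map_sum, coeff_sum]
  have h2 : ∀ b ∈ q.support, coeff μ (aeval (fun j => if j = i then C p else X j)
      (monomial b (coeff b q)) : MvPolynomial (Fin n) L) =
        if b.erase i = μ then p ^ b i * coeff b q else 0 := by
    intro b _
    rw [hm, coeff_monomial, mul_comm]
  rw [Finset.sum_congr rfl h2, ← Finset.sum_filter] at h0
  have hinj : Function.Injective (fun e : Fin (d + 1) => μ + Finsupp.single i (e : ℕ)) := by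
    intro e e' h
    have h3 := DFunLike.congr_fun h i
    simp only [Finsupp.add_apply, Finsupp.single_eq_same, hμ, zero_add] at h3
    exact Fin.ext h3
  have herase : ∀ e : ℕ, (μ + Finsupp.single i e).erase i = μ := by
    intro e
    ext j
    by_cases hj : j = i
    · subst hj
      rw [Finsupp.erase_same, hμ]
    · rw [Finsupp.erase_ne hj, Finsupp.add_apply, Finsupp.single_eq_of_ne hj, add_zero]
  have h4 : ∑ e : Fin (d + 1), p ^ (e : ℕ) * coeff (μ + Finsupp.single i (e : ℕ)) q =
      ∑ b ∈ Finset.univ.image (fun e : Fin (d + 1) => μ + Finsupp.single i (e : ℕ)),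
        p ^ b i * coeff b q := by
    rw [Finset.sum_image (fun _ _ _ _ h => hinj h)]
    refine Finset.sum_congr rfl fun e _ => ?_
    rw [Finsupp.add_apply, Finsupp.single_eq_same, hμ, zero_add]
  rw [h4, ← h0]
  symm
  refine Finset.sum_subset ?_ ?_
  · intro b hb
    rw [Finset.mem_filter] at hb
    have h5 : b i ≤ d := by
      refine le_trans ?_ hd
      rw [degreeOf_eq_sup]
      exact Finset.le_sup (f := fun m : Fin n →₀ ℕ => m i) hb.1
    rw [Finset.mem_image]
    refine ⟨⟨b i, by omega⟩, Finset.mem_univ _, ?_⟩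
    rw [← hb.2]
    exact Finsupp.erase_add_single i b
  · intro b hb hb'
    rw [Finset.mem_image] at hb
    obtain ⟨e, _, rfl⟩ := hb
    rw [Finset.mem_filter, not_and] at hb'
    have h6 : coeff (μ + Finsupp.single i (e : ℕ)) q = 0 := by
      by_contra h7
      exact hb' (mem_support_iff.2 h7) (herase e)
    rw [h6, mul_zero]

end Pool.Agent.AOI
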